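import Pool.Agent.Lib.MP_3a4f2f_gt.Good

/-! Every skein invariant with values in a ring takes its values in `δ S`. -/

set_option autoImplicit false

namespace Pool.Agent.Lib.MP_3a4f2f_gt.H90

variable {R : Type} [CommRing R]

/-- Invariance, curls, circles and a skein relation with coefficients in `S`. -/
structure Sy (o : Bool) (S : Subring R) (δ : R) (Z : Word → R) : Prop where
  mv : ∀ u v x y, RMove x y → V o (u ++ (x ++ v)) → Z (u ++ (x ++ v)) = Z (u ++ (y ++ v))
  cu : ∀ u v d b i, V o (u ++ (.cup d, i) :: (.cr b, i) :: v) → ∃ c ∈ S,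
    Z (u ++ (.cup d, i) :: (.cr b, i) :: v) = c * Z (u ++ (.cup (!d), i) :: v)
  ca : ∀ u v b i, V o (u ++ (.cr b, i) :: (.cap, i) :: v) → ∃ c ∈ S,
    Z (u ++ (.cr b, i) :: (.cap, i) :: v) = c * Z (u ++ (.cap, i) :: v)
  eye : ∀ u v d i, V o (u ++ (.cup d, i) :: (.cap, i) :: v) →
    Z (u ++ (.cup d, i) :: (.cap, i) :: v) = δ * Z (u ++ v)
  nil : Z [] = 1
  δS : δ ∈ S
  sw : ∀ u v b i d, (o = true → d = (rn o [] u).getD (i + 1) true) →
    V o (u ++ (.cr b, i) :: v) → ∃ a ∈ S, ∃ a' ∈ S, ∃ a'' ∈ S,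
      Z (u ++ (.cr b, i) :: v) = a * Z (u ++ (.cr (!b), i) :: v) + a' * Z (u ++ v) +
        a'' * Z (u ++ (.cap, i) :: (.cup d, i) :: v) ∧
      (a' = 0 ∨ V o (u ++ v)) ∧ (a'' = 0 ∨ V o (u ++ (.cap, i) :: (.cup d, i) :: v))

/-- The value lies in `δ S`. -/
def Gd (o : Bool) (S : Subring R) (δ : R) (Z : Word → R) (w : Word) : Prop :=
  V o w → w ≠ [] → ∃ r ∈ S, Z w = δ * r

/-- One step. -/
def Sp (o : Bool) (S : Subring R) (Z : Word → R) (w w' : Word) : Prop :=
  V o w → V o w' ∧ ∃ c ∈ S, Z w = c * Z w'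

variable {o : Bool} {S : Subring R} {δ : R} {Z : Word → R}

lemma Sp.trans {a b c : Word} (h1 : Sp o S Z a b) (h2 : Sp o S Z b c) : Sp o S Z a c := fun h => by
  obtain ⟨h3, x, hx, h4⟩ := h1 h
  obtain ⟨h5, y, hy, h6⟩ := h2 h3
  exact ⟨h5, x * y, S.mul_mem hx hy, by rw [h4, h6, mul_assoc]⟩

lemma Sp.gd {w w' : Word} (h : Sp o S Z w w') (hne : V o w → w' ≠ []) (hg : Gd o S δ Z w') :
    Gd o S δ Z w := fun hv _ => by
  obtain ⟨h1, c, hc, h2⟩ := h hv
  obtain ⟨r, hr, h3⟩ := hg h1 (hne hv)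
  exact ⟨c * r, S.mul_mem hc hr, by rw [h2, h3]; ring⟩

lemma Sy.fwd (h : Sy o S δ Z) (u v : Word) {x y : Word} (hm : RMove x y) :
    Sp o S Z (u ++ (x ++ v)) (u ++ (y ++ v)) :=
  fun hv => ⟨hv.move hm, 1, S.one_mem, by rw [one_mul]; exact h.mv u v x y hm hv⟩

lemma Sy.bwd (h : Sy o S δ Z) (u v : Word) {x y : Word} (hm : RMove x y)
    (hb : V o (u ++ (y ++ v)) → V o (u ++ (x ++ v))) :
    Sp o S Z (u ++ (y ++ v)) (u ++ (x ++ v)) :=
  fun hv => ⟨hb hv, 1, S.one_mem, by rw [one_mul]; exact (h.mv u v x y hm (hb hv)).symm⟩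

lemma Sy.commF (h : Sy o S δ Z) (u v : Word) (k l : Letter) (i t : ℕ) :
    Sp o S Z (u ++ (k, i) :: (l, i + t + k.out) :: v) (u ++ (l, i + t + k.inp) :: (k, i) :: v) :=
  h.fwd u v (.comm k l i t)

lemma Sy.commB (h : Sy o S δ Z) (u v : Word) (k l : Letter) (i t : ℕ) :
    Sp o S Z (u ++ (l, i + t + k.inp) :: (k, i) :: v) (u ++ (k, i) :: (l, i + t + k.out) :: v) :=
  h.bwd u v (.comm k l i t) fun hv => hv.swap (comm_back hv.tail)

lemma Sy.slF (h : Sy o S δ Z) (u v : Word) (d b : Bool) (i : ℕ) :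
    Sp o S Z (u ++ (.cup d, i + 1) :: (.cr b, i) :: v)
      (u ++ (.cup d, i) :: (.cr (!b), i + 1) :: v) := h.fwd u v (.slideCup d b i)

lemma Sy.slB (h : Sy o S δ Z) (u v : Word) (d b : Bool) (i : ℕ) :
    Sp o S Z (u ++ (.cup d, i) :: (.cr b, i + 1) :: v)
      (u ++ (.cup d, i + 1) :: (.cr (!b), i) :: v) := by
  have := h.bwd u v (.slideCup d (!b) i) fun hv => hv.swap (slideCup_back hv.tail)
  simpa using this

lemma Sy.scB (h : Sy o S δ Z) (u v : Word) (b : Bool) (i : ℕ) :
    Sp o S Z (u ++ (.cr b, i + 1) :: (.cap, i) :: v) (u ++ (.cr (!b), i) :: (.cap, i + 1) :: v) := by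
  have := h.bwd u v (.slideCap (!b) i) fun hv => hv.swap (slideCap_back (allT_ctx u) hv.tail)
  simpa using this

lemma Sy.r2F (h : Sy o S δ Z) (u v : Word) (g : Letter × ℕ) (b : Bool) (i : ℕ) :
    Sp o S Z (u ++ g :: (.cr b, i) :: (.cr (!b), i) :: v) (u ++ g :: v) := by
  simpa using h.fwd (u ++ [g]) v (.r2 b i)

lemma Sy.caS (h : Sy o S δ Z) (u v : Word) (b : Bool) (i : ℕ) :
    Sp o S Z (u ++ (.cr b, i) :: (.cap, i) :: v) (u ++ (.cap, i) :: v) :=
  fun hv => ⟨hv.curlCap, h.ca u v b i hv⟩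

lemma Sy.kinkUp (h : Sy o S δ Z) (u v : Word) (d b : Bool) (m : ℕ) :
    Sp o S Z (u ++ (.cup d, m) :: (.cr b, m + 1) :: (.cap, m) :: v) (u ++ v) := by
  have h1 := h.slB u ((.cap, m) :: v) d b m
  have h2 := h.caS (u ++ [(.cup d, m + 1)]) v (!b) m
  have h3 := h.fwd u v (.zig d m)
  simp only [List.append_assoc, List.cons_append, List.nil_append] at h2 h3
  exact (h1.trans h2).trans h3

lemma Sy.switch (h : Sy o S δ Z) (u v : Word) (b : Bool) (i : ℕ) (d : Bool)
    (hd : o = true → d = (rn o [] u).getD (i + 1) true)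
    (h1 : Gd o S δ Z (u ++ (.cr (!b), i) :: v)) (h2 : Gd o S δ Z (u ++ v))
    (h3 : Gd o S δ Z (u ++ (.cap, i) :: (.cup d, i) :: v)) :
    Gd o S δ Z (u ++ (.cr b, i) :: v) := fun hv _ => by
  obtain ⟨a, ha, a', ha', a'', ha'', he, k2, k3⟩ := h.sw u v b i d hd hv
  obtain ⟨r, hr, e1⟩ := h1 hv.flip (by simp)
  obtain ⟨r', hr', e2⟩ : ∃ r ∈ S, a' * Z (u ++ v) = δ * r := by
    rcases k2 with rfl | k2
    · exact ⟨0, S.zero_mem, by simp⟩
    obtain ⟨r, hr, e⟩ := h2 k2 (ne_nil_of_len (o := o) (by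
      have := val_len hv.tail; simp [Letter.inp] at this; omega))
    exact ⟨a' * r, S.mul_mem ha' hr, by rw [e]; ring⟩
  obtain ⟨r'', hr'', e3⟩ : ∃ r ∈ S, a'' * Z (u ++ (.cap, i) :: (.cup d, i) :: v) = δ * r := by
    rcases k3 with rfl | k3
    · exact ⟨0, S.zero_mem, by simp⟩
    obtain ⟨r, hr, e⟩ := h3 k3 (by simp)
    exact ⟨a'' * r, S.mul_mem ha'' hr, by rw [e]; ring⟩
  exact ⟨a * r + r' + r'', S.add_mem (S.add_mem (S.mul_mem ha hr) hr') hr'',
    by rw [he, e1, e2, e3]; ring⟩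

theorem Sy.rules (h : Sy o S δ Z) : Rules (Gd o S δ Z) where
  nocup w hw hv hne := absurd (val_nil_noCup hw hv) hne
  opn u d m s k hv _ := by
    have h1 := hv.tail
    have h2 := val_open (dn s k) (fun g hg => by
      obtain ⟨j, rfl, -⟩ := mem_dn hg; exact ⟨j, rfl⟩) h1.2
    have h3 := length_nx (o := o) (val_len h1)
    rw [h2] at h3
    simp [U, Letter.out] at h3
  cXX u v i j hv hij := by
    obtain ⟨t, rfl⟩ : ∃ t, j = i + t + 2 := ⟨j - i - 2, by omega⟩
    exact ⟨(h.commB u v (.cr true) (.cr true) i t).gd (by simp),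
      (h.commF u v (.cr true) (.cr true) i t).gd (by simp)⟩
  cXA1 u v i j hv hij := by
    obtain ⟨t, rfl⟩ : ∃ t, j = i + t + 2 := ⟨j - i - 2, by omega⟩
    exact (h.commF u v (.cr true) .cap i t).gd (by simp)
  cXA2 u v i j hv hij := by
    obtain ⟨t, rfl⟩ : ∃ t, i = j + t := ⟨i - j, by omega⟩
    exact (h.commB u v .cap (.cr true) j t).gd (by simp)
  cUX1 u v d m i hv hij := by
    obtain ⟨t, rfl⟩ : ∃ t, m = i + t + 2 := ⟨m - i - 2, by omega⟩
    exact (h.commB u v (.cr true) (.cup d) i t).gd (by simp)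
  cUX2 u v d m i hv hij := by
    obtain ⟨t, rfl⟩ : ∃ t, i = m + t := ⟨i - m, by omega⟩
    exact (h.commF u v (.cup d) (.cr true) m t).gd (by simp)
  cUA1 u v d m i hv hij := by
    obtain ⟨t, rfl⟩ : ∃ t, m = i + t := ⟨m - i, by omega⟩
    exact (h.commB u v .cap (.cup d) i t).gd (by simp)
  cUA2 u v d m i hv hij := by
    obtain ⟨t, rfl⟩ : ∃ t, i = m + t := ⟨i - m, by omega⟩
    exact (h.commF u v (.cup d) .cap m t).gd (by simp)
  braid u v i hv := (h.fwd u v (.r3 true i)).gd (by simp)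
  l2a u v d m hv := ((h.slB u (X m :: v) d true m).trans (h.r2F u v _ (!true) m)).gd (by simp)
  l2b u v d m hv :=
    ((h.slF u (X (m + 1) :: v) d true m).trans (h.r2F u v _ (!true) (m + 1))).gd (by simp)
  l2c u v i hv := by
    have k1 := h.scB (u ++ [X i]) v true i
    have k2 := h.fwd u (A (i + 1) :: v) (.r2 true i)
    simp only [List.append_assoc, List.cons_append, List.nil_append] at k1 k2
    exact (k1.trans k2).gd (by simp)
  l1 u v d m hv := (h.kinkUp u v d true m).gd fun hV => ne_nil_of_len (o := o) (by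
    have := val_len2 hV.tail
    simp [Letter.inp, Letter.out] at *; omega)
  k1 u v d m hv := Sp.gd (fun hV => ⟨hV.curlCup, h.cu u v d true m hV⟩) (by simp)
  k2 u v m hv := (h.caS u v true m).gd (by simp)
  z1 u v d m hv := (h.fwd u v (.zig d m)).gd fun hV => ne_nil_of_len (o := o) (by
    have := val_len hV.tail
    simp [Letter.inp] at *; omega)
  z2 u v d m hv := (h.fwd u v (.zag d m)).gd fun hV => ne_nil_of_len (o := o) (by
    have := val_len2 hV.tail
    simp [Letter.inp, Letter.out] at *; omega)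
  eye u v d m hv hg hV _ := by
    have hm : m ≤ (rn o [] u).length := by simpa [U, Letter.inp] using val_len hV.tail
    have he := h.eye u v d m hV
    by_cases hne : u ++ v = []
    · exact ⟨1, S.one_mem, by rw [hne, h.nil] at he; exact he⟩
    · obtain ⟨r, hr, e⟩ := hg ((V.eye hm).1 hV) hne
      exact ⟨δ * r, S.mul_mem h.δS hr, by rw [e] at he; exact he⟩
  sk u v d m hv gC gD := by
    constructor
    · intro g hV
      obtain ⟨P, e, B, hE, rfl⟩ := split1 (rn o [] u) m (by
        have := val_len2 hV.tail; simp [U, X, Letter.inp, Letter.out] at this; omega)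
      have h0 : rn o [] (u ++ [(.cup d, P.length)]) = P ++ (cp o d).1 :: (cp o d).2 :: e :: B := by
        rw [rn_snoc, hE, nx_shift0]; simp [nx, ins]
      have := h.switch (u ++ [U d P.length]) v true (P.length + 1) (if o then e else d)
        (fun ho => by
          rw [U, h0, if_pos ho, add_assoc, getD_shift]; rfl)
        (by simpa [U, X] using (h.slB u v d false P.length).gd (by simp) g) (by simpa using gD)
        (fun hW hn => by
          have k := h.fwd u ((.cup (if o then e else d), P.length + 1) :: v) (.zag d P.length)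
          have he : (if o then e else d) = d := by
            split_ifs with ho
            · have := (show V o (u ++ _) by simpa using hW).tail
              rw [hE] at this
              exact ((zag_core P B e d _ [] (by simp [ho])).1.1 this).1 ho
            · rfl
          rw [he] at k hW hn ⊢
          simpa [U] using k.gd (by simp) gC (by simpa [U] using hW))
      simpa [X] using this (by simpa [X] using hV)
    · intro g hV
      obtain ⟨P, e, B, hE, rfl⟩ := split1 (rn o [] u) m (by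
        simpa [U, Letter.inp] using val_len hV.tail)
      have h0 : rn o [] (u ++ [(.cup d, P.length + 1)]) =
          P ++ e :: (cp o d).1 :: (cp o d).2 :: B := by
        rw [rn_snoc, hE, nx_shift]; simp [nx, ins]
      have := h.switch (u ++ [U d (P.length + 1)]) v true P.length d
        (fun ho => by rw [U, h0, getD_shift]; simp [cp, ho])
        (by simpa [U, X] using (h.slF u v d false P.length).gd (by simp) g) (by simpa using gC)
        (by simpa [U] using (h.fwd u ((.cup d, P.length) :: v) (.zig d P.length)).gd (by simp) gD)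
      simpa [X] using this (by simpa [X] using hV)

theorem Sy.all (h : Sy o S δ Z) (w : Word) : Gd o S δ Z w := by
  induction hN : w.countP (fun g => g.1 = .cr false) using Nat.strong_induction_on
    generalizing w with
  | _ N IH =>
    by_cases hw : Front w
    · exact h.rules.all w hw
    simp only [Front, not_forall, not_not] at hw
    obtain ⟨⟨_, i⟩, hg, rfl⟩ := hw
    obtain ⟨u, v, rfl⟩ := List.append_of_mem hg
    subst hN
    refine h.switch u v false i _ (fun _ => rfl) (IH _ ?_ _ rfl) (IH _ ?_ _ rfl) (IH _ ?_ _ rfl)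
    all_goals simp

end Pool.Agent.Lib.MP_3a4f2f_gt.H90
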