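import Pool.Agent.Lib.MP_3a4f2f_gt.H90.Par
import Pool.Agent.Lib.MP_3a4f2f_gt.H90.Gn

/-! The skein polynomial exists. -/

set_option autoImplicit false

namespace Pool.Agent.Lib.MP_3a4f2f_gt.H90

open LaurentPolynomial

variable {F : Type} [Field F]

lemma Zs_loc {A : Type} {κ : Ker F A} {o : Bool} {D : A → Bool} (H : Resp o D κ) (u v : Word)
    {P B : List Bool} (hE : rn o [] u = P ++ B) (x y y' y'' : Word) (a b c : F)
    (h : ∀ ψ s, s.map D = B →
      tr κ x ψ s = a * tr κ y ψ s + b * tr κ y' ψ s + c * tr κ y'' ψ s) :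
    Zs κ (u ++ (sh P.length x ++ v)) = a * Zs κ (u ++ (sh P.length y ++ v)) +
      b * Zs κ (u ++ (sh P.length y' ++ v)) + c * Zs κ (u ++ (sh P.length y'' ++ v)) := by
  refine Zs_lin H u v _ _ _ _ a b c fun ψ s hs => ?_
  rw [hE] at hs
  obtain ⟨s1, s2, rfl, rfl, rfl⟩ := List.map_eq_append_iff.1 hs
  simp only [List.length_map, tr_shift]
  exact h _ _ rfl

variable {N : ℕ} (p : Par F N) (u v : Word)

lemma two {e e' : Bool} {B : List Bool} {s : List (Lb N)} (h : s.map Prod.fst = e :: e' :: B) :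
    ∃ a a' t, s = (e, a) :: (e', a') :: t := by
  obtain ⟨⟨_, a⟩, s, rfl, rfl, h1⟩ := List.map_eq_cons_iff.1 h
  obtain ⟨⟨_, a'⟩, s, rfl, rfl, -⟩ := List.map_eq_cons_iff.1 h1
  exact ⟨a, a', s, rfl⟩

lemma Z_mv {x y : Word} (hm : RMove x y) (hv : V true (u ++ (x ++ v))) :
    Zs p.k (u ++ (x ++ v)) = Zs p.k (u ++ (y ++ v)) := by
  simpa using Zs_lin p.resp u v x y y y 1 0 0 fun ψ s hs => by
    simpa using (eqv_rmove hm hv.tail).eq ψ s hs

lemma Z_cu (d b : Bool) (i : ℕ) (hv : V true (u ++ (.cup d, i) :: (.cr b, i) :: v)) :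
    Zs p.k (u ++ (.cup d, i) :: (.cr b, i) :: v) =
      pm p.l (!b) * pm p.Q (!b) * Zs p.k (u ++ (.cup (!d), i) :: v) := by
  obtain ⟨P, B, hE, rfl⟩ := split0 (rn true [] u) i (by simpa [Letter.inp] using val_len hv.tail)
  simpa [sh] using Zs_loc p.resp u v hE [(.cup d, 0), (.cr b, 0)] [(.cup (!d), 0)] [] []
    (pm p.l (!b) * pm p.Q (!b)) 0 0 fun ψ s _ => by simpa using r1Cup p ψ s d b

lemma Z_ca (b : Bool) (i : ℕ) (hv : V true (u ++ (.cr b, i) :: (.cap, i) :: v)) :
    Zs p.k (u ++ (.cr b, i) :: (.cap, i) :: v) =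
      pm p.l (!b) * pm p.Q (!b) * Zs p.k (u ++ (.cap, i) :: v) := by
  obtain ⟨P, e, e', B, hE, rfl⟩ := split2 (rn true [] u) i (by
    simpa [Letter.inp] using val_len hv.tail)
  have h1 := hv.curlCap.tail.1
  rw [hE, fit_shift0] at h1
  obtain rfl : e' = !e := Bool.eq_not_iff.2 (h1.2 rfl rfl).symm
  simpa [sh] using Zs_loc p.resp u v hE [(.cr b, 0), (.cap, 0)] [(.cap, 0)] [] []
    (pm p.l (!b) * pm p.Q (!b)) 0 0 fun ψ s hs => by
      obtain ⟨a, a', t, rfl⟩ := two hs
      simpa using r1Cap p ψ t b e a a'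

lemma Z_eye (d : Bool) (i : ℕ) (hv : V true (u ++ (.cup d, i) :: (.cap, i) :: v)) :
    Zs p.k (u ++ (.cup d, i) :: (.cap, i) :: v) =
      (∑ a, p.α d a / p.α (!d) a) * Zs p.k (u ++ v) := by
  obtain ⟨P, B, hE, rfl⟩ := split0 (rn true [] u) i (by simpa [Letter.inp] using val_len hv.tail)
  simpa [sh] using Zs_loc p.resp u v hE [(.cup d, 0), (.cap, 0)] [] [] []
    (∑ a, p.α d a / p.α (!d) a) 0 0 fun ψ s _ => by simpa using eye p ψ s d

lemma Z_skP (b e : Bool) {P B : List Bool} (hE : rn true [] u = P ++ e :: e :: B) :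
    Zs p.k (u ++ (.cr b, P.length) :: v) =
      pm p.l b * pm p.l b * Zs p.k (u ++ (.cr (!b), P.length) :: v) +
        pm p.l b * p.z b * Zs p.k (u ++ v) := by
  simpa [sh] using Zs_loc p.resp u v hE [(.cr b, 0)] [(.cr (!b), 0)] [] []
    (pm p.l b * pm p.l b) (pm p.l b * p.z b) 0 fun ψ s hs => by
      obtain ⟨a, a', t, rfl⟩ := two hs
      simp only [tr_cons, tr_nil]
      linear_combination pm p.l b * skP p ψ t b e a a' -
        op p.k (.cr b, 0) ψ ((e, a) :: (e, a') :: t) * pm_mul p.l0 b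

lemma Z_skX (b e : Bool) {P B : List Bool} (hE : rn true [] u = P ++ e :: (!e) :: B) :
    Zs p.k (u ++ (.cr b, P.length) :: v) =
      pm p.l (!b) * pm p.l (!b) * Zs p.k (u ++ (.cr (!b), P.length) :: v) +
        pm p.l (!b) * p.z (!b) * Zs p.k (u ++ (.cap, P.length) :: (.cup (!e), P.length) :: v) := by
  simpa [sh] using Zs_loc p.resp u v hE [(.cr b, 0)] [(.cr (!b), 0)] [(.cap, 0), (.cup (!e), 0)] []
    (pm p.l (!b) * pm p.l (!b)) (pm p.l (!b) * p.z (!b)) 0 fun ψ s hs => by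
      obtain ⟨a, a', t, rfl⟩ := two hs
      have := skX p ψ t b e a a'
      simp only [tr_cons, tr_nil] at this ⊢
      linear_combination pm p.l (!b) * this -
        op p.k (.cr b, 0) ψ ((e, a) :: (!e, a') :: t) * pm_mul p.l0 b

lemma same_val {o : Bool} {P B : List Bool} {e b : Bool} {v : Word}
    (h : Val o (P ++ e :: e :: B) ((.cr b, P.length) :: v) []) : Val o (P ++ e :: e :: B) v [] := by
  have := h.2
  rwa [nx_shift0] at this

lemma anti_val {P B : List Bool} {e b : Bool} {v : Word}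
    (h : Val true (P ++ e :: (!e) :: B) ((.cr b, P.length) :: v) []) :
    Val true (P ++ e :: (!e) :: B) ((.cap, P.length) :: (.cup (!e), P.length) :: v) [] := by
  simp only [Val, nx_shift0, fit_shift0] at h ⊢
  simpa [nx, ins, del, swp, Fit, cp, Letter.inp] using h

/-- Evaluation of a Laurent polynomial in two variables. -/
noncomputable def ev2 (z l : Fˣ) : L2 →+* F := eval₂ (eval₂ (Int.castRingHom F) z) l

lemma ev2_T (z l : Fˣ) (b : Bool) : ev2 z l (T (if b then 1 else -1)) = pm (l : F) b := by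
  cases b <;> simp [ev2, eval₂_T, pm]

lemma ev2_C (z l : Fˣ) (b : Bool) : ev2 z l (C (T (if b then 1 else -1))) = pm (z : F) b := by
  cases b <;> simp [ev2, eval₂_T, eval₂_C, pm]

lemma ev2_inj [CharZero F] (z : ℕ → Fˣ) (l : ℕ → ℕ → Fˣ) (hz : Function.Injective z)
    (hl : ∀ k, Function.Injective (l k)) (r : L2) (h : ∀ k n, ev2 (z k) (l k n) r = 0) : r = 0 :=
  laurent_zero (fun k => eval₂ (Int.castRingHom F) (z k))
    (fun s hs => laurent_zero (I := Unit) (fun _ => Int.castRingHom F)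
      (fun a ha => by simpa using ha ()) (fun _ => z) (fun _ => hz) s fun _ => hs) l hl r h

/-- `q = k + 2`. -/
def qk (k : ℕ) : ℚ := k + 2

lemma qk_gt (k : ℕ) : 1 < qk k := by
  have : (0 : ℚ) ≤ k := Nat.cast_nonneg k
  unfold qk; linarith

lemma qk0 (k : ℕ) : qk k ≠ 0 := by have := qk_gt k; positivity

lemma sub_inv_ne {x : ℚ} (h : 1 < x) : x - x⁻¹ ≠ 0 := by
  have := inv_lt_one_of_one_lt₀ h
  intro e; linarith

/-- `z = q - 1/q`. -/
def zk (k : ℕ) : ℚˣ := Units.mk0 _ (sub_inv_ne (qk_gt k))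

lemma zk_inj : Function.Injective zk := by
  have : StrictMono fun k => (zk k : ℚ) := strictMono_nat_of_lt_succ fun k => by
    have h1 := qk_gt k
    have h2 : qk k < qk (k + 1) := by simp [qk]
    have := inv_strictAnti₀ (by linarith) h2
    simp only [zk, Units.val_mk0]
    linarith
  exact fun a b h => this.injective (congrArg Units.val h)

/-- `l = q ^ (-n-1)`. -/
def lk (k n : ℕ) : ℚˣ := Units.mk0 (qk k ^ (n + 1))⁻¹ (inv_ne_zero (pow_ne_zero _ (qk0 k)))

lemma lk_inj (k : ℕ) : Function.Injective (lk k) := fun a b h => by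
  have := pow_right_injective₀ (by have := qk_gt k; positivity) (qk_gt k).ne'
    (inv_injective (congrArg Units.val h))
  omega

/-- Parameters. -/
noncomputable def pk (i : ℕ × ℕ) : Par ℚ (i.2 + 1) :=
  mkPar (qk i.1) (lk i.1 i.2) (qk0 _) (Units.ne_zero _) _

/-- All evaluations. -/
noncomputable def ιP : L2 →+* (ℕ × ℕ → ℚ) := RingHom.pi fun i => ev2 (zk i.1) (lk i.1 i.2)

/-- All state sums. -/
noncomputable def ZP (w : Word) : ℕ × ℕ → ℚ := fun i => Zs (pk i).k w

/-- Value of the circle. -/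
noncomputable def δP : L2 := C (T (if false then 1 else -1)) *
  (T (if false then 1 else -1) - T (if true then 1 else -1))

lemma ι_T (b : Bool) (i : ℕ × ℕ) : ιP (T (if b then 1 else -1)) i = pm (pk i).l b := ev2_T _ _ b

lemma ι_z (i : ℕ × ℕ) : ιP (C (T 1)) i = (pk i).z true := ev2_C _ _ true

lemma lQ (b : Bool) (i : ℕ × ℕ) : pm (pk i).l b * pm (pk i).Q b = 1 := by
  have := pow_ne_zero (i.2 + 1) (qk0 i.1)
  cases b <;> simp [pm, pk, mkPar, lk, this]

lemma ι_δ (d : Bool) (i : ℕ × ℕ) : ∑ a, (pk i).α d a / (pk i).α (!d) a = ιP δP i := by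
  refine mul_left_cancel₀ (sub_inv_ne (qk_gt i.1)) (((pk i).loop d).trans ?_)
  have := sub_inv_ne (qk_gt i.1)
  rw [δP, map_mul, map_sub, Pi.mul_apply, Pi.sub_apply, ι_T, ι_T,
    show ιP (C (T (if false then 1 else -1))) i = _ from ev2_C _ _ false]
  simp [pm, pk, mkPar, lk, zk, this]

lemma δ_ne (i : ℕ × ℕ) : ιP δP i ≠ 0 := by
  intro h
  have := (pk i).loop true
  rw [ι_δ, h, mul_zero] at this
  exact sub_inv_ne (one_lt_pow₀ (qk_gt i.1) (Nat.succ_ne_zero i.2)) this.symm

lemma ιP_inj {r s : L2} (h : ιP δP * ιP r = ιP δP * ιP s) : r = s := by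
  refine sub_eq_zero.1 (ev2_inj zk lk zk_inj lk_inj _ fun k n => ?_)
  have := mul_left_cancel₀ (δ_ne (k, n)) (congrFun h (k, n))
  rw [map_sub]
  exact sub_eq_zero.2 this

lemma z_mem (b : Bool) : (fun i => (pk i).z b) ∈ ιP.range := by
  cases b
  · exact ⟨-(C (T 1) : L2), funext fun i => by
      rw [map_neg, Pi.neg_apply, ι_z, ← z_not]; rfl⟩
  · exact ⟨C (T 1), funext ι_z⟩

lemma l_mem (b : Bool) : (fun i => pm (pk i).l b) ∈ ιP.range := ⟨_, funext (ι_T b)⟩

lemma syP : Sy true ιP.range (ιP δP) ZP where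
  mv u v _ _ hm hv := funext fun i => Z_mv _ u v hm hv
  cu u v d b i hv := ⟨1, one_mem _, funext fun j => by
    simpa [ZP, lQ] using Z_cu (pk j) u v d b i hv⟩
  ca u v b i hv := ⟨1, one_mem _, funext fun j => by
    simpa [ZP, lQ] using Z_ca (pk j) u v b i hv⟩
  eye u v d i hv := funext fun j => by
    simpa [ZP, ι_δ] using Z_eye (pk j) u v d i hv
  nil := funext fun _ => Zs_nil
  δS := ⟨_, rfl⟩
  sw u v b i d hd hv := by
    obtain ⟨P, e, e', B, hE, rfl⟩ := split2 (rn true [] u) i (by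
      simpa [Letter.inp] using val_len hv.tail)
    have h1 := hv.tail
    rw [hE] at h1
    obtain rfl : d = e' := by rw [hd rfl, hE, getD_shift]; rfl
    by_cases he : d = e
    · subst he
      exact ⟨_, mul_mem (l_mem b) (l_mem b), _, mul_mem (l_mem b) (z_mem b), 0, zero_mem _,
        funext fun j => by simpa [ZP] using Z_skP (pk j) u v b d hE,
        Or.inr (hv.swap (by rw [hE]; exact same_val h1)), Or.inl rfl⟩
    · obtain rfl : d = !e := Bool.eq_not_iff.2 he
      exact ⟨_, mul_mem (l_mem !b) (l_mem !b), 0, zero_mem _, _, mul_mem (l_mem !b) (z_mem !b),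
        funext fun j => by simpa [ZP] using Z_skX (pk j) u v b e hE,
        Or.inl rfl, Or.inr (hv.swap (by rw [hE]; exact anti_val h1))⟩

/-- The polynomial with the given values. -/
noncomputable def PP (w : Word) : L2 := by
  classical exact if h : ∃ r, ZP w = ιP δP * ιP r then h.choose else 0

lemma PP_spec {w : Word} (hv : V true w) (hn : w ≠ []) : ZP w = ιP δP * ιP (PP w) := by
  obtain ⟨_, ⟨r, rfl⟩, h⟩ := syP.all w hv hn
  have h' : ∃ r, ZP w = ιP δP * ιP r := ⟨r, h⟩
  rw [PP, dif_pos h']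
  exact h'.choose_spec

lemma PP_congr {w w' : Word} (h : ZP w = ZP w') : PP w = PP w' := by
  unfold PP
  rw [h]

theorem exists_homfly : ∃ P, IsHomfly P := by
  refine ⟨PP, fun u v x y hm hv => PP_congr ?_, fun d => ιP_inj ?_, fun u v i hv he => ιP_inj ?_⟩
  · have hv' : V true (u ++ (x ++ v)) := by simpa [V] using val_true.2 hv
    simp only [List.append_assoc]
    cases hm with
    | reg hm => exact syP.mv u v x y hm hv'
    | r1Cup d b i => exact funext fun j => by simpa [ZP, lQ] using Z_cu (pk j) u v d b i hv'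
    | r1Cap b i => exact funext fun j => by simpa [ZP, lQ] using Z_ca (pk j) u v b i hv'
  · have hv : V true ([] ++ (.cup d, 0) :: (.cap, 0) :: []) := (V.eye (by simp)).2 rfl
    refine (PP_spec hv (by simp)).symm.trans ((syP.eye _ _ _ _ hv).trans ?_)
    rw [map_one]
    exact congrArg _ syP.nil
  · have hv' : V true (u ++ (.cr true, i) :: v) := val_true.2 hv
    obtain ⟨P, e, e', B, hE, rfl⟩ := split2 (rn true [] u) i (by
      simpa [Letter.inp] using val_len hv'.tail)
    have h1 := hv'.tail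
    rw [hE] at h1
    obtain rfl : e = e' := by
      rw [← rn_true, hE, getD_shift] at he
      simpa using he
    have h2 : V true (u ++ v) := hv'.swap (by rw [hE]; exact same_val h1)
    have e1 := PP_spec hv' (by simp)
    have e2 := PP_spec (hv'.flip (b' := false)) (by simp)
    have e3 := PP_spec h2 (ne_nil_of_len (o := true) (by simp [hE]))
    rw [map_sub, map_mul, map_mul, map_mul, mul_sub, mul_left_comm, ← e1, mul_left_comm, ← e2,
      mul_left_comm, ← e3]
    funext j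
    have k1 : ιP (T (-1)) j = _ := ι_T false j
    have k2 : ιP (T 1) j = _ := ι_T true j
    have k3 := Z_skP (pk j) u v true e hE
    have k4 := pm_mul (pk j).l0 true
    simp only [Pi.sub_apply, Pi.mul_apply, k1, k2, ι_z, ZP, k3, Bool.not_true] at k4 ⊢
    linear_combination (pm (pk j).l true * Zs (pk j).k (u ++ (.cr false, P.length) :: v) +
      (pk j).z true * Zs (pk j).k (u ++ v)) * k4

end Pool.Agent.Lib.MP_3a4f2f_gt.H90
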