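import Pool.Agent.Lib.MP_3a4f2f_gt.Good

/-! State sums on words: local kernels, transfer operators, locality. -/

set_option autoImplicit false

namespace Pool.Agent.Lib.MP_3a4f2f_gt.H90

variable {F A : Type} [Field F]

/-- Pairing of a function with a finite formal sum. -/
noncomputable def lc (φ : List A → F) : (List A →₀ F) →ₗ[F] F := Finsupp.linearCombination F φ

@[simp] lemma lc_single (φ : List A → F) (t : List A) (c : F) :
    lc φ (Finsupp.single t c) = c * φ t := by simp [lc]

lemma lc_lin (a b : F) (φ φ' : List A → F) (v : List A →₀ F) :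
    lc (fun t => a * φ t + b * φ' t) v = a * lc φ v + b * lc φ' v := by
  simp [lc, Finsupp.linearCombination_apply, Finsupp.sum, Finset.sum_add_distrib, mul_add,
    Finset.mul_sum, mul_left_comm]

lemma lc_comm (φ : List A → List A → F) (v w : List A →₀ F) :
    lc (fun t => lc (φ t) w) v = lc (fun r => lc (fun t => φ t r) v) w := by
  simp only [lc, Finsupp.linearCombination_apply, Finsupp.sum, smul_eq_mul, Finset.mul_sum]
  rw [Finset.sum_comm]
  simp only [mul_left_comm]

/-- Kernels. -/
abbrev Ker (F A : Type) [Field F] : Type := Letter → List A → (List A →₀ F)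

variable (κ : Ker F A)

/-- Transfer operator of a piece. -/
noncomputable def op (g : Letter × ℕ) (ψ : List A → F) (s : List A) : F :=
  if g.2 + g.1.inp ≤ s.length then
    lc (fun t => ψ (s.take g.2 ++ (t ++ s.drop (g.2 + g.1.inp)))) (κ g.1 ((s.drop g.2).take g.1.inp))
  else 0

/-- Transfer operator of a word. -/
noncomputable def tr (w : Word) (ψ : List A → F) : List A → F := w.foldr (op κ) ψ

@[simp] lemma tr_nil (ψ : List A → F) : tr κ [] ψ = ψ := rfl
@[simp] lemma tr_cons (g : Letter × ℕ) (w : Word) (ψ : List A → F) :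
    tr κ (g :: w) ψ = op κ g (tr κ w ψ) := rfl
lemma tr_append (u v : Word) (ψ : List A → F) : tr κ (u ++ v) ψ = tr κ u (tr κ v ψ) :=
  List.foldr_append

lemma op_eq (k : Letter) (ψ : List A → F) (P h B : List A) (hh : h.length = k.inp) :
    op κ (k, P.length) ψ (P ++ (h ++ B)) = lc (fun t => ψ (P ++ (t ++ B))) (κ k h) := by
  simp [op, ← hh, List.drop_append, List.drop_eq_nil_of_le]

lemma op_succ (k : Letter) (i : ℕ) (ψ : List A → F) (x : A) (s : List A) :
    op κ (k, i + 1) ψ (x :: s) = op κ (k, i) (fun t => ψ (x :: t)) s := by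
  simp only [op, List.length_cons, List.take_succ_cons, List.drop_succ_cons, add_right_comm i 1,
    add_le_add_iff_right, List.cons_append]

lemma op_one (k : Letter) (ψ : List A → F) (x : A) (s : List A) :
    op κ (k, 1) ψ (x :: s) = op κ (k, 0) (fun t => ψ (x :: t)) s := op_succ κ k 0 ψ x s

lemma op_two (k : Letter) (ψ : List A → F) (x y : A) (s : List A) :
    op κ (k, 2) ψ (x :: y :: s) = op κ (k, 0) (fun t => ψ (x :: y :: t)) s := by
  rw [op_succ κ k 1, op_one]

lemma op_shift (k : Letter) (i : ℕ) (ψ : List A → F) (P s : List A) :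
    op κ (k, P.length + i) ψ (P ++ s) = op κ (k, i) (fun t => ψ (P ++ t)) s := by
  induction P generalizing ψ with
  | nil => simp
  | cons x P ih => rw [List.length_cons, add_right_comm, List.cons_append, op_succ, ih]; rfl

/-- Move a word down. -/
def sh (n : ℕ) (w : Word) : Word := w.map fun g => (g.1, n + g.2)

lemma tr_shift (w : Word) (ψ : List A → F) (P s : List A) :
    tr κ (sh P.length w) ψ (P ++ s) = tr κ w (fun t => ψ (P ++ t)) s := by
  induction w generalizing s with
  | nil => rfl
  | cons g w ih =>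
    rw [sh, List.map_cons, tr_cons, op_shift, tr_cons]
    exact congrArg (fun φ => op κ g φ s) (funext ih)

lemma op_lin (g : Letter × ℕ) (a b : F) (φ φ' : List A → F) (s : List A) :
    op κ g (fun t => a * φ t + b * φ' t) s = a * op κ g φ s + b * op κ g φ' s := by
  simp only [op]
  split_ifs
  · exact lc_lin _ _ _ _ _
  · simp

lemma tr_lin (w : Word) (a b : F) (φ φ' : List A → F) (s : List A) :
    tr κ w (fun t => a * φ t + b * φ' t) s = a * tr κ w φ s + b * tr κ w φ' s := by
  induction w generalizing s with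
  | nil => rfl
  | cons g w ih => rw [tr_cons, funext ih, op_lin]; rfl

lemma tr_smul (w : Word) (a : F) (φ : List A → F) (s : List A) :
    tr κ w (fun t => a * φ t) s = a * tr κ w φ s := by
  simpa using tr_lin κ w a 0 φ φ s

variable {κ}

/-- The outputs of the kernel have the directions (or only the lengths) given by `nx`. -/
def Resp (o : Bool) (D : A → Bool) (κ : Ker F A) : Prop :=
  ∀ k h φ φ', h.length = k.inp → (∀ t, t.map D = nx o (h.map D) (k, 0) → φ t = φ' t) →
    lc φ (κ k h) = lc φ' (κ k h)

variable {o : Bool} {D : A → Bool}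

lemma Resp.op (H : Resp o D κ) (g : Letter × ℕ) {φ φ' : List A → F} {s : List A}
    (h : ∀ t, g.2 + g.1.inp ≤ s.length → t.map D = nx o (s.map D) g → φ t = φ' t) :
    op κ g φ s = op κ g φ' s := by
  by_cases hl : g.2 + g.1.inp ≤ s.length
  swap
  · simp [H90.op, hl]
  obtain ⟨k, i⟩ := g
  obtain ⟨P, I, B, rfl, rfl, hI⟩ : ∃ P I B, s = P ++ (I ++ B) ∧ i = P.length ∧ I.length = k.inp :=
    ⟨s.take i, (s.drop i).take k.inp, (s.drop i).drop k.inp, by simp,
      by simp at hl ⊢; omega, by simp at hl ⊢; omega⟩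
  rw [op_eq _ _ _ _ _ _ hI, op_eq _ _ _ _ _ _ hI]
  refine H k I _ _ hI fun t ht => h _ hl ?_
  have h1 := nx_shift0 (o := o) (P.map D) (I.map D ++ B.map D) k
  rw [(local0 k _ _ (by simpa using hI)).1, List.length_map] at h1
  simp only [List.map_append, h1, ht]

lemma Resp.tr (H : Resp o D κ) (u : Word) {φ φ' : List A → F} {s : List A}
    (h : ∀ t, t.map D = rn o (s.map D) u → φ t = φ' t) : tr κ u φ s = tr κ u φ' s := by
  induction u generalizing s with
  | nil => exact h s rfl
  | cons g u ih => exact H.op g fun t _ ht => ih fun r hr => h r (by rw [hr, ht]; rfl)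

lemma Resp.comm (H : Resp o D κ) (k l : Letter) (i t : ℕ) (ψ : List A → F) (s : List A)
    (hl : i + t + k.inp + l.inp ≤ s.length) :
    H90.tr κ [(k, i), (l, i + t + k.out)] ψ s = H90.tr κ [(l, i + t + k.inp), (k, i)] ψ s := by
  obtain ⟨P, R, rfl, rfl⟩ := split0 s i (by omega)
  obtain ⟨I, R, rfl, hI⟩ := split0 R k.inp (by simp at hl; omega)
  obtain ⟨M, R, rfl, rfl⟩ := split0 R t (by simp at hl; omega)
  obtain ⟨J, B, rfl, hJ⟩ := split0 R l.inp (by simp at hl; omega)
  simp only [tr_cons, tr_nil]
  have e1 : ∀ r : List A, r.length = k.out →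
      H90.op κ (l, P.length + M.length + k.out) ψ (P ++ (r ++ (M ++ (J ++ B)))) =
        lc (fun r' => ψ (P ++ (r ++ (M ++ (r' ++ B))))) (κ l J) := fun r hr => by
    have := op_eq κ l ψ (P ++ (r ++ M)) J B hJ.symm
    simp only [List.length_append, List.append_assoc, hr] at this
    rw [← this]
    congr 2
    omega
  have e2 := op_eq κ l (H90.op κ (k, P.length) ψ) (P ++ (I ++ M)) J B hJ.symm
  simp only [List.length_append, List.append_assoc, ← hI] at e2
  rw [show P.length + M.length + k.inp = P.length + (k.inp + M.length) by omega, e2,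
    op_eq _ _ _ _ _ _ hI.symm]
  simp only [op_eq _ _ _ _ _ _ hI.symm]
  rw [← lc_comm]
  refine H k I _ _ hI.symm fun r hr => e1 r ?_
  rw [← List.length_map D, hr]
  exact (local0 k _ [] (by simpa using hI.symm)).2.2.2

end Pool.Agent.Lib.MP_3a4f2f_gt.H90
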