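import Pool.Agent.Lib.MP_3a4f2f_gt.H90.Gen

/-! The state sum with labelled oriented strands and its local identities. -/

set_option autoImplicit false

namespace Pool.Agent.Lib.MP_3a4f2f_gt.H90

open Finsupp

/-- `x` or its inverse. -/
def pm {F : Type} [Field F] (x : F) (s : Bool) : F := if s then x else x⁻¹

/-- Order condition. -/
def ord {N : ℕ} (e b : Bool) (a c : Fin N) : Prop := if e = b then a < c else c < a

instance {N : ℕ} (e b : Bool) (a c : Fin N) : Decidable (ord e b a c) := by
  unfold ord; infer_instance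

/-- Parameters of the state sum. -/
structure Par (F : Type) [Field F] (N : ℕ) where
  q : F
  Q : F
  l : F
  α : Bool → Fin N → F
  q0 : q ≠ 0
  Q0 : Q ≠ 0
  l0 : l ≠ 0
  α0 : ∀ d a, α d a ≠ 0
  key : ∀ d b c, pm q (!b) * (α d c / α (!d) c) +
    (pm q (!b) - pm q b) * ∑ a, (if ord d b a c then α d a / α (!d) a else 0) = pm Q (!b)
  loop : ∀ d, (q - q⁻¹) * ∑ a, α d a / α (!d) a = Q - Q⁻¹

variable {F : Type} [Field F] {N : ℕ} (p : Par F N)

abbrev Lb (N : ℕ) : Type := Bool × Fin N

/-- `± (q - 1/q)`. -/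
def Par.z (s : Bool) : F := pm p.q s - pm p.q (!s)

/-- Weight of the exchange of two strands. -/
def Par.τ (s : Bool) (a c : Fin N) : F := if a = c then pm p.q s else 1

/-- The kernel. -/
noncomputable def Par.k : Ker F (Lb N)
  | .cup d, _ => ∑ a, single [(d, a), (!d, a)] (p.α d a)
  | .cap, [x, y] => if x.1 ≠ y.1 ∧ x.2 = y.2 then single [] (p.α y.1 x.2)⁻¹ else 0
  | .cr b, [x, y] =>
    if x.1 = y.1 then pm p.l b • (single [y, x] (p.τ b x.2 y.2) +
      if ord x.1 b x.2 y.2 then single [x, y] (p.z b) else 0)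
    else pm p.l (!b) • (single [y, x] (p.τ (!b) x.2 y.2) +
      if x.2 = y.2 then ∑ c, if ord x.1 b x.2 c then
        single [(y.1, c), (x.1, c)] (p.z (!b) * (p.α y.1 c / p.α y.1 x.2)) else 0 else 0)
  | _, _ => 0

variable (ψ : List (Lb N) → F) (s : List (Lb N))

lemma opU (d : Bool) : op p.k (.cup d, 0) ψ s = ∑ a, p.α d a * ψ ((d, a) :: (!d, a) :: s) := by
  simp [op, Letter.inp, Par.k]

lemma opA (e e' : Bool) (a a' : Fin N) : op p.k (.cap, 0) ψ ((e, a) :: (e', a') :: s) =
    if e ≠ e' ∧ a = a' then (p.α e' a)⁻¹ * ψ s else 0 := by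
  simp only [op, Letter.inp, Par.k, List.length_cons, List.drop_zero, List.take_succ_cons,
    List.take_zero, zero_add, List.drop_succ_cons, List.nil_append]
  rw [if_pos (by omega)]
  split_ifs <;> simp

lemma opP (b e : Bool) (a a' : Fin N) : op p.k (.cr b, 0) ψ ((e, a) :: (e, a') :: s) =
    pm p.l b * (p.τ b a a' * ψ ((e, a') :: (e, a) :: s) +
      if ord e b a a' then p.z b * ψ ((e, a) :: (e, a') :: s) else 0) := by
  simp only [op, Letter.inp, Par.k, List.length_cons, List.drop_zero, List.take_succ_cons,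
    List.take_zero, zero_add, List.drop_succ_cons, List.nil_append]
  rw [if_pos (by omega)]
  simp only [map_smul, map_add, apply_ite (lc _), lc_single, map_zero, smul_eq_mul, if_true,
    List.cons_append, List.nil_append]

lemma opX (b : Bool) {e e' : Bool} (h : e ≠ e') (a a' : Fin N) :
    op p.k (.cr b, 0) ψ ((e, a) :: (e', a') :: s) =
    pm p.l (!b) * (p.τ (!b) a a' * ψ ((e', a') :: (e, a) :: s) +
      if a = a' then ∑ c, if ord e b a c then
        p.z (!b) * (p.α e' c / p.α e' a) * ψ ((e', c) :: (e, c) :: s) else 0 else 0) := by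
  simp only [op, Letter.inp, Par.k, List.length_cons, List.drop_zero, List.take_succ_cons,
    List.take_zero, zero_add, List.drop_succ_cons, List.nil_append]
  rw [if_pos (by omega), if_neg h]
  simp only [map_smul, map_add, apply_ite (lc _), map_sum, lc_single, map_zero, smul_eq_mul,
    List.cons_append, List.nil_append]

lemma Par.resp : Resp true Prod.fst p.k := by
  intro k h φ φ' hl H
  have he : ∀ φ, lc φ (p.k k h) = op p.k (k, 0) φ h := fun φ => by
    simpa using (op_eq p.k k φ [] h [] hl).symm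
  rw [he, he]
  clear he
  cases k with
  | cup d =>
    obtain rfl : h = [] := List.length_eq_zero_iff.1 hl
    simp only [opU]
    exact Finset.sum_congr rfl fun a _ => by rw [H _ (by simp [nx, ins, cp])]
  | cap =>
    obtain ⟨⟨e, a⟩, ⟨e', a'⟩, rfl⟩ := List.length_eq_two.1 hl
    simp only [opA]
    rw [H _ (by simp [nx, del])]
  | cr b =>
    obtain ⟨⟨e, a⟩, ⟨e', a'⟩, rfl⟩ := List.length_eq_two.1 hl
    have H' : ∀ c c', φ [(e', c), (e, c')] = φ' [(e', c), (e, c')] := fun c c' =>
      H _ (by simp [nx, swp])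
    by_cases h : e = e'
    · subst h
      simp only [opP, H']
    · simp only [opX p _ _ b h, H']

lemma pm_mul {x : F} (h : x ≠ 0) (b : Bool) : pm x b * pm x (!b) = 1 := by
  cases b <;> simp [pm, h]

lemma ord_swap (e b : Bool) (a c : Fin N) : ord (!e) b a c ↔ ord e b c a := by
  cases e <;> cases b <;> simp [ord]

lemma ord_not (e b : Bool) (a c : Fin N) : ord e (!b) a c ↔ ord e b c a := by
  cases e <;> cases b <;> simp [ord]

lemma ord_irrefl (e b : Bool) (a : Fin N) : ¬ ord e b a a := by
  cases e <;> cases b <;> simp [ord]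

lemma τ_comm (b : Bool) (a c : Fin N) : p.τ b a c = p.τ b c a := by simp only [Par.τ, eq_comm]

lemma zig (d : Bool) (a : Fin N) :
    tr p.k [(.cup d, 1), (.cap, 0)] ψ ((!d, a) :: s) = ψ ((!d, a) :: s) := by
  simp [op_one, opU, opA, p.α0]

lemma zag (d : Bool) (a : Fin N) :
    tr p.k [(.cup d, 0), (.cap, 1)] ψ ((d, a) :: s) = ψ ((d, a) :: s) := by
  simp [op_one, opU, opA, p.α0]

lemma eye (d : Bool) :
    tr p.k [(.cup d, 0), (.cap, 0)] ψ s = (∑ a, p.α d a / p.α (!d) a) * ψ s := by
  simp [opU, opA, Finset.sum_mul, div_eq_mul_inv, mul_assoc]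

lemma slideCup (d b : Bool) (x : Lb N) :
    tr p.k [(.cup d, 1), (.cr b, 0)] ψ (x :: s) = tr p.k [(.cup d, 0), (.cr (!b), 1)] ψ (x :: s) := by
  obtain ⟨e, a⟩ := x
  simp only [tr_cons, tr_nil, op_one, opU]
  by_cases h : e = d
  · subst h
    simp only [opP, opX p _ _ _ (Bool.not_ne_self e), Bool.not_not, mul_add,
      Finset.sum_add_distrib, mul_ite, mul_zero, Finset.sum_ite_eq', Finset.mem_univ, if_true,
      Finset.mul_sum, ord_swap, ord_not, τ_comm p b a]
    congr 1
    refine Finset.sum_congr rfl fun c _ => ?_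
    have := p.α0 e a
    split_ifs
    · field_simp
    · rfl
  · obtain rfl : e = !d := by cases e <;> cases d <;> simp_all
    simp only [opP, opX p _ _ _ h, mul_add,
      Finset.sum_add_distrib, mul_ite, mul_zero, Finset.sum_ite_eq, Finset.mem_univ, if_true,
      Finset.mul_sum, ord_swap, ord_not, τ_comm p (!b) a]
    congr 1
    refine Finset.sum_congr rfl fun c _ => ?_
    have := p.α0 d a
    split_ifs
    · field_simp
    · rfl

lemma sum_ite2 (P : Fin N → Prop) [DecidablePred P] (a : Fin N) (f : Fin N → F) :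
    (∑ x, if P x then if x = a then f x else 0 else 0) = if P a then f a else 0 := by
  rw [Finset.sum_eq_single a (fun x _ h => by simp [h]) (by simp)]
  simp

lemma slideCap (b : Bool) (x y w : Lb N) :
    tr p.k [(.cr b, 0), (.cap, 1)] ψ (x :: y :: w :: s) =
      tr p.k [(.cr (!b), 1), (.cap, 0)] ψ (x :: y :: w :: s) := by
  obtain ⟨e, a⟩ := x
  obtain ⟨e', a'⟩ := y
  obtain ⟨e'', a''⟩ := w
  simp only [tr_cons, tr_nil, op_one]
  have h1 := p.α0 e'' a''
  have h2 := p.α0 e'' a
  have h3 := p.α0 e'' a'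
  by_cases h : e' = e''
  · subst h
    by_cases h' : e = e'
    · subst h'
      simp [opP, op_one, opA]
    · obtain rfl : e = !e' := by cases e <;> cases e' <;> simp_all
      simp only [opP, opX p _ _ _ h', op_one, opA, ne_eq, h', not_false_eq_true, true_and, mul_ite,
        mul_zero, ord_swap, ord_not, sum_ite2, τ_comm p _ a']
      by_cases k : a = a' <;> by_cases k' : a = a'' <;> subst_vars <;>
        simp [*, ord_irrefl]
      all_goals split_ifs <;> simp
      all_goals (field_simp; simp)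
  · by_cases h' : e = e'
    · subst h'
      simp only [opP, opX p _ _ _ h, op_one, opA, ne_eq, h, not_false_eq_true, true_and, mul_ite,
        mul_zero, ord_not, Bool.not_not, eq_comm (a := a), sum_ite2, τ_comm p _ a']
      by_cases k : a' = a'' <;> by_cases k' : a'' = a <;> subst_vars <;>
        simp [*, ord_irrefl]
      all_goals split_ifs <;> simp
      all_goals (field_simp; simp)
    · obtain rfl : e = e'' := by cases e <;> cases e' <;> cases e'' <;> simp_all
      simp [opX p _ _ _ h, opX p _ _ _ h', op_one, opA]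

lemma r1Cup (d b : Bool) : tr p.k [(.cup d, 0), (.cr b, 0)] ψ s =
    pm p.l (!b) * pm p.Q (!b) * tr p.k [(.cup (!d), 0)] ψ s := by
  simp only [tr_cons, tr_nil, opU, opX p _ _ _ (Bool.self_ne_not d), Bool.not_not, if_true,
    mul_add, Finset.sum_add_distrib, Finset.mul_sum]
  rw [Finset.sum_comm, ← Finset.sum_add_distrib]
  refine Finset.sum_congr rfl fun c _ => ?_
  rw [← p.key d b c, Par.τ, if_pos rfl, Par.z, Bool.not_not]
  simp only [mul_add, add_mul, Finset.mul_sum, Finset.sum_mul]
  have := p.α0 (!d) c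
  congr 1
  · field_simp
  refine Finset.sum_congr rfl fun a _ => ?_
  have := p.α0 (!d) a
  split_ifs
  · field_simp
  · simp

lemma r1Cap (b e : Bool) (a a' : Fin N) :
    tr p.k [(.cr b, 0), (.cap, 0)] ψ ((e, a) :: (!e, a') :: s) =
      pm p.l (!b) * pm p.Q (!b) * tr p.k [(.cap, 0)] ψ ((e, a) :: (!e, a') :: s) := by
  simp only [tr_cons, tr_nil, opA, opX p _ _ _ (Bool.self_ne_not e)]
  by_cases h : a = a'
  swap
  · simp [h, Ne.symm h]
  subst h
  rw [← p.key (!e) b a, Par.τ, if_pos rfl, Par.z, Bool.not_not]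
  simp only [Bool.not_not, ne_eq, Bool.not_eq_self, Bool.eq_not_self, not_false_eq_true, and_self,
    if_true, mul_add, add_mul, Finset.mul_sum, Finset.sum_mul, ord_swap]
  have := p.α0 e a
  have := p.α0 (!e) a
  congr 1
  · field_simp
  refine Finset.sum_congr rfl fun c _ => ?_
  have := p.α0 e c
  split_ifs
  · field_simp
  · simp

lemma z_not (b : Bool) : p.z (!b) = -p.z b := by simp [Par.z]

lemma ord_tri (e b : Bool) {a c : Fin N} (h : a ≠ c) : ord e b c a ↔ ¬ ord e b a c := by
  unfold ord; split_ifs <;> omega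

lemma skP (b e : Bool) (a a' : Fin N) :
    pm p.l (!b) * op p.k (.cr b, 0) ψ ((e, a) :: (e, a') :: s) -
      pm p.l b * op p.k (.cr (!b), 0) ψ ((e, a) :: (e, a') :: s) =
      p.z b * ψ ((e, a) :: (e, a') :: s) := by
  rw [opP, opP, ← mul_assoc, ← mul_assoc, mul_comm (pm p.l (!b)), pm_mul p.l0]
  simp only [ord_not, z_not]
  by_cases h : a = a'
  · subst h
    simp [ord_irrefl, Par.τ, Par.z, sub_mul]
  · simp only [Par.τ, if_neg h, ord_tri e b h]
    split_ifs <;> ring

lemma skX (b e : Bool) (a a' : Fin N) :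
    pm p.l b * op p.k (.cr b, 0) ψ ((e, a) :: (!e, a') :: s) -
      pm p.l (!b) * op p.k (.cr (!b), 0) ψ ((e, a) :: (!e, a') :: s) =
      p.z (!b) * tr p.k [(.cap, 0), (.cup (!e), 0)] ψ ((e, a) :: (!e, a') :: s) := by
  rw [opX p _ _ _ (Bool.self_ne_not e), opX p _ _ _ (Bool.self_ne_not e), Bool.not_not,
    ← mul_assoc, ← mul_assoc, mul_comm (pm p.l (!b)), pm_mul p.l0]
  simp only [tr_cons, tr_nil, opA, opU, Bool.not_not, one_mul, ord_not]
  by_cases h : a = a'
  swap
  · simp [h, Par.τ]
  subst h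
  have h0 := p.α0 (!e) a
  simp only [Par.τ, if_true, ne_eq, Bool.eq_not_self, not_false_eq_true, and_self,
    Finset.mul_sum]
  have e1 : ∀ x y u v : F, x + y - (u + v) = (x - u) + (y - v) := fun _ _ _ _ => by ring
  rw [e1, ← Finset.sum_sub_distrib, ← Finset.add_sum_erase _ _ (Finset.mem_univ a),
    ← Finset.add_sum_erase _ _ (Finset.mem_univ a), ← add_assoc]
  congr 1
  · simp only [ord_irrefl, if_false, Par.z, Bool.not_not]
    field_simp
    ring
  refine Finset.sum_congr rfl fun c hc => ?_
  simp only [ord_tri e b (Finset.ne_of_mem_erase hc).symm, z_not]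
  split_ifs <;> simp_all <;> field_simp

lemma r2P (b e : Bool) (a a' : Fin N) :
    tr p.k [(.cr b, 0), (.cr (!b), 0)] ψ ((e, a) :: (e, a') :: s) = ψ ((e, a) :: (e, a') :: s) := by
  have h1 := pm_mul p.l0 b
  have h2 := pm_mul p.q0 b
  simp only [tr_cons, tr_nil, opP, ord_not, z_not]
  by_cases h : a = a'
  · subst h
    simp only [ord_irrefl, if_false, Par.τ, if_true, add_zero]
    linear_combination (ψ ((e, a) :: (e, a) :: s) * pm p.q b * pm p.q (!b)) * h1 +
      ψ ((e, a) :: (e, a) :: s) * h2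
  · simp only [Par.τ, if_neg h, if_neg (Ne.symm h), ord_tri e b h]
    split_ifs <;> simp_all <;> linear_combination ψ ((e, a) :: (e, a') :: s) * h1

lemma r2X (b e : Bool) (a a' : Fin N) :
    tr p.k [(.cr b, 0), (.cr (!b), 0)] ψ ((e, a) :: (!e, a') :: s) =
      ψ ((e, a) :: (!e, a') :: s) := by
  have h1 := pm_mul p.l0 b
  have h2 := pm_mul p.q0 b
  simp only [tr_cons, tr_nil, opX p _ _ _ (Bool.self_ne_not e), opX p _ _ _ (Bool.not_ne_self e),
    Bool.not_not, ord_swap, ord_not, if_true]
  by_cases h : a = a'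
  swap
  · simp only [Par.τ, if_neg h, if_neg (Ne.symm h)]
    linear_combination ψ ((e, a) :: (!e, a') :: s) * h1
  subst h
  have hs : ∀ m, ord e b a m → p.z b * ∑ c, (if ord e b a c then if ord e b c m then
      p.α (!e) c / p.α e c else 0 else 0) =
      pm p.q (!b) * (p.α (!e) a / p.α e a) - pm p.q b * (p.α (!e) m / p.α e m) := fun m hm => by
    have k1 := p.key (!e) (!b) m
    have k2 := p.key (!e) (!b) a
    simp only [Bool.not_not, ord_swap, ord_not] at k1 k2
    have k3 : (∑ c, if ord e b c m then p.α (!e) c / p.α e c else 0) =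
        (∑ c, if ord e b c a then p.α (!e) c / p.α e c else 0) +
        (∑ c, if c = a then p.α (!e) c / p.α e c else 0) +
        ∑ c, (if ord e b a c then if ord e b c m then p.α (!e) c / p.α e c else 0 else 0) := by
      rw [← Finset.sum_add_distrib, ← Finset.sum_add_distrib]
      refine Finset.sum_congr rfl fun c _ => ?_
      unfold ord at hm ⊢
      split_ifs at hm ⊢ <;> first | omega | simp
    rw [Finset.sum_ite_eq', if_pos (Finset.mem_univ a)] at k3
    rw [Par.z]
    linear_combination k1 - k2 - (pm p.q b - pm p.q (!b)) * k3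
  have key : ∀ m, (if ord e b a m then pm p.q (!b) * (p.z b * (p.α e m / p.α e a)) +
      p.z (!b) * (p.α (!e) m / p.α (!e) a) * pm p.q b else 0) + ∑ c, (if ord e b a c then
      if ord e b c m then p.z (!b) * (p.α (!e) c / p.α (!e) a) * (p.z b * (p.α e m / p.α e c))
      else 0 else 0) = 0 := fun m => by
    have := p.α0 e a
    have := p.α0 e m
    have := p.α0 (!e) a
    split_ifs with hm
    · have e1 : ∀ c, (if ord e b a c then if ord e b c m then
          p.z (!b) * (p.α (!e) c / p.α (!e) a) * (p.z b * (p.α e m / p.α e c)) else 0 else 0) =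
          p.z (!b) * (p.α e m / p.α (!e) a) * (p.z b * if ord e b a c then if ord e b c m then
          p.α (!e) c / p.α e c else 0 else 0) := fun c => by
        split_ifs <;> ring
      simp only [e1]
      rw [← Finset.mul_sum, ← Finset.mul_sum, hs m hm, z_not]
      field_simp
      ring
    · rw [zero_add]
      refine Finset.sum_eq_zero fun c _ => ?_
      unfold ord at hm ⊢
      split_ifs at hm ⊢ <;> first | omega | rfl
  have key2 := Finset.sum_eq_zero (s := Finset.univ) fun m _ =>
    mul_eq_zero_of_left (key m) (pm p.l b * ψ ((e, m) :: (!e, m) :: s))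
  simp only [add_mul, Finset.sum_add_distrib, Finset.sum_mul] at key2
  rw [Finset.sum_comm, ← Finset.sum_add_distrib] at key2
  simp only [Par.τ, if_true]
  have e2 : pm p.q (!b) * (pm p.l b * ∑ c, if ord e b a c then
      p.z b * (p.α e c / p.α e a) * ψ ((e, c) :: (!e, c) :: s) else 0) + ∑ c, (if ord e b a c then
      p.z (!b) * (p.α (!e) c / p.α (!e) a) * (pm p.l b * (pm p.q b * ψ ((e, c) :: (!e, c) :: s) +
      ∑ m, if ord e b c m then p.z b * (p.α e m / p.α e c) * ψ ((e, m) :: (!e, m) :: s) else 0))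
      else 0) = 0 := by
    refine Eq.trans ?_ key2
    rw [Finset.mul_sum, Finset.mul_sum, ← Finset.sum_add_distrib]
    refine Finset.sum_congr rfl fun c _ => ?_
    split_ifs
    · simp only [mul_add, Finset.mul_sum, ← add_assoc]
      congr 1
      · ring
      refine Finset.sum_congr rfl fun m _ => ?_
      split_ifs <;> ring
    · simp
  linear_combination pm p.l (!b) * e2 + (ψ ((e, a) :: (!e, a) :: s) * pm p.q b * pm p.q (!b)) * h1 +
    ψ ((e, a) :: (!e, a) :: s) * h2

lemma r2 (b : Bool) (x y : Lb N) :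
    tr p.k [(.cr b, 0), (.cr (!b), 0)] ψ (x :: y :: s) = ψ (x :: y :: s) := by
  obtain ⟨e, a⟩ := x
  obtain ⟨e', a'⟩ := y
  by_cases h : e' = e
  · subst h; exact r2P p ψ s b e' a a'
  · obtain rfl : e' = !e := by cases e <;> cases e' <;> simp_all
    exact r2X p ψ s b e a a'

lemma r3P (b : Bool) (x y w : Fin N) :
    tr p.k [(.cr b, 0), (.cr b, 1), (.cr b, 0)] ψ ((true, x) :: (true, y) :: (true, w) :: s) =
      tr p.k [(.cr b, 1), (.cr b, 0), (.cr b, 1)] ψ ((true, x) :: (true, y) :: (true, w) :: s) := by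
  have h := p.q0
  simp only [tr_cons, tr_nil, opP, op_one]
  generalize pm p.l b = l
  rcases lt_trichotomy x y with h1 | h1 | h1 <;> rcases lt_trichotomy x w with h2 | h2 | h2 <;>
    rcases lt_trichotomy y w with h3 | h3 | h3 <;> (try omega) <;> subst_vars <;> cases b <;>
    simp only [ord, Par.τ, Par.z, pm, *, ne_of_lt, ne_of_gt, not_lt_of_gt, lt_irrefl, if_true,
      if_false, Bool.not_true, Bool.not_false, Bool.true_eq_false, Bool.false_eq_true] <;>
    field_simp <;> ring

end Pool.Agent.Lib.MP_3a4f2f_gt.H90
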