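import Pool.Agent.Lib.MP_3a4f2f_gt.H90.Mv

/-! The unoriented state sum (Jaeger's expansion over directions). -/

set_option autoImplicit false

namespace Pool.Agent.Lib.MP_3a4f2f_gt.H90

open Finsupp

variable {F : Type} [Field F] {N : ℕ} (p : Par F N)

/-- Weight of a cup. -/
def Par.w (d : Bool) : F := if d then 1 else p.q / p.Q

/-- Ratio of the weights. -/
def Par.t (b : Bool) : F := pm (p.q / p.Q) b

/-- The unoriented kernel. -/
noncomputable def Par.k' : Ker F (Lb N)
  | .cup _, h => p.w true • p.k (.cup true) h + p.w false • p.k (.cup false) h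
  | .cap, [x, y] => (p.w y.1)⁻¹ • p.k .cap [x, y]
  | .cr b, [x, y] => p.k (.cr b) [x, y] + if x.1 = (!b) ∧ y.1 = b then
      p.z b • (single [x, y] 1 - (p.t b * lc (fun _ => 1) (p.k .cap [x, y])) • p.k (.cup (!b)) [])
      else 0
  | _, _ => 0

variable (ψ : List (Lb N) → F) (s : List (Lb N))

lemma opU' (d : Bool) (i : ℕ) : op p.k' (.cup d, i) ψ s =
    p.w true * op p.k (.cup true, i) ψ s + p.w false * op p.k (.cup false, i) ψ s := by
  simp only [op, Letter.inp, Par.k']
  split_ifs <;> simp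

lemma opA' (x y : Lb N) :
    op p.k' (.cap, 0) ψ (x :: y :: s) = (p.w y.1)⁻¹ * op p.k (.cap, 0) ψ (x :: y :: s) := by
  simp [op, Letter.inp, Par.k']

lemma opX' (b : Bool) (x y : Lb N) :
    op p.k' (.cr b, 0) ψ (x :: y :: s) = op p.k (.cr b, 0) ψ (x :: y :: s) +
      if x.1 = (!b) ∧ y.1 = b then p.z b * (ψ (x :: y :: s) -
        p.t b * tr p.k [(.cap, 0), (.cup (!b), 0)] ψ (x :: y :: s)) else 0 := by
  have h1 : tr p.k [(.cap, 0), (.cup (!b), 0)] ψ (x :: y :: s) =
      lc (fun _ => 1) (p.k .cap [x, y]) * lc (fun t => ψ (t ++ s)) (p.k (.cup (!b)) []) := by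
    have a1 := opA p (fun _ => 1) [] x.1 y.1 x.2 y.2
    have a2 := opA p (op p.k (.cup (!b), 0) ψ) s x.1 y.1 x.2 y.2
    have a3 : op p.k (.cap, 0) (fun _ => 1) [x, y] = lc (fun _ => 1) (p.k .cap [x, y]) :=
      op_eq p.k .cap _ [] [x, y] [] rfl
    have a4 : op p.k (.cup (!b), 0) ψ s = _ := op_eq p.k (.cup (!b)) ψ [] [] s rfl
    rw [← a3, a1, tr_cons, tr_cons, tr_nil, a2, a4]
    split_ifs <;> simp
  rw [h1, show op p.k' (.cr b, 0) ψ (x :: y :: s) = _ from op_eq p.k' (.cr b) ψ [] [x, y] s rfl,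
    show op p.k (.cr b, 0) ψ (x :: y :: s) = _ from op_eq p.k (.cr b) ψ [] [x, y] s rfl]
  simp only [Par.k', map_add]
  split_ifs <;> simp [mul_assoc]

lemma Par.resp' : Resp false (fun _ => true) p.k' := by
  intro k h φ φ' hl H
  have he : ∀ φ, lc φ (p.k' k h) = op p.k' (k, 0) φ h := fun φ => by
    simpa using (op_eq p.k' k φ [] h [] hl).symm
  rw [he, he]
  clear he
  cases k with
  | cup d =>
    obtain rfl : h = [] := List.length_eq_zero_iff.1 hl
    have H' : ∀ x y, φ [x, y] = φ' [x, y] := fun x y => H _ (by simp [nx, ins, cp])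
    simp only [opU', opU, H']
  | cap =>
    obtain ⟨⟨e, a⟩, ⟨e', a'⟩, rfl⟩ := List.length_eq_two.1 hl
    simp only [opA', opA]
    rw [H _ (by simp [nx, del])]
  | cr b =>
    obtain ⟨⟨e, a⟩, ⟨e', a'⟩, rfl⟩ := List.length_eq_two.1 hl
    have H' : ∀ x y, φ [x, y] = φ' [x, y] := fun x y => H _ (by simp [nx, swp])
    by_cases h : e = e'
    · subst h
      simp only [opX', opP, H', tr_cons, tr_nil, opA, opU]
    · simp only [opX', opX p _ _ b h, H', tr_cons, tr_nil, opA, opU]

/-- Expansion of an unoriented word in oriented words. -/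
noncomputable def ex : List Bool → Word → (Word → F) → F
  | _, [], T => T []
  | E, (.cup _, i) :: w, T =>
    p.w true * ex (nx true E (.cup true, i)) w (fun y => T ((.cup true, i) :: y)) +
      p.w false * ex (nx true E (.cup false, i)) w (fun y => T ((.cup false, i) :: y))
  | E, (.cap, i) :: w, T =>
    (p.w (E.getD (i + 1) true))⁻¹ * ex (nx true E (.cap, i)) w (fun y => T ((.cap, i) :: y))
  | E, (.cr b, i) :: w, T => ex (nx true E (.cr b, i)) w (fun y => T ((.cr b, i) :: y)) +
    if E[i]? = some (!b) ∧ E[i + 1]? = some b then p.z b * (ex E w T -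
      p.t b * ex E w (fun y => T ((.cap, i) :: (.cup (!b), i) :: y))) else 0

lemma ex_lin (L : (List (Lb N) → F) → F)
    (hL : ∀ a b φ φ', L (fun t => a * φ t + b * φ' t) = a * L φ + b * L φ')
    (w : Word) (E : List Bool) (Φ : Word → List (Lb N) → F) :
    L (fun t => ex p E w fun y => Φ y t) = ex p E w fun y => L (Φ y) := by
  induction w generalizing E Φ with
  | nil => rfl
  | cons g w ih =>
    obtain ⟨k, i⟩ := g
    cases k with
    | cup d => simp only [ex, hL, ← ih]
    | cap =>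
      simp only [ex, ← ih]
      simpa using hL _ 0 _ (fun _ => 0)
    | cr b =>
      simp only [ex, ← ih]
      split_ifs
      · have := hL 1 (p.z b) (fun t => ex p (nx true E (.cr b, i)) w fun y => Φ ((.cr b, i) :: y) t)
          fun t => 1 * (ex p E w fun y => Φ y t) +
            -p.t b * ex p E w fun y => Φ ((.cap, i) :: (.cup (!b), i) :: y) t
        rw [hL 1 (-p.t b)] at this
        simpa [sub_eq_add_neg] using this
      · simp

/-- Value of an oriented word. -/
noncomputable def Tw (w : Word) : F := tr p.k w ψ s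

lemma ex_spec (w : Word) : tr p.k' w ψ s = ex p (s.map Prod.fst) w (Tw p ψ s) := by
  induction w generalizing s with
  | nil => rfl
  | cons g w ih =>
    have key : ∀ x : Word, tr p.k x (tr p.k' w ψ) s =
        ex p (rn true (s.map Prod.fst) x) w fun y => Tw p ψ s (x ++ y) := fun x => by
      simp only [Tw, tr_append]
      rw [← ex_lin p (fun φ => tr p.k x φ s) (fun a b φ φ' => tr_lin _ _ _ _ _ _ _)]
      exact p.resp.tr x fun t ht => by rw [ih, ht]; rfl
    have k1 : ∀ g, op p.k g (tr p.k' w ψ) s =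
        ex p (nx true (s.map Prod.fst) g) w fun y => Tw p ψ s (g :: y) := fun g => key [g]
    obtain ⟨k, i⟩ := g
    rw [tr_cons]
    cases k with
    | cup d => rw [opU', k1, k1, ex]
    | cap =>
      rw [ex, ← k1]
      by_cases hl : i + 2 ≤ s.length
      · obtain ⟨P, x, y, B, rfl, rfl⟩ := split2 s i hl
        have a1 := fun κ => op_shift κ .cap 0 (tr p.k' w ψ) P (x :: y :: B)
        rw [add_zero] at a1
        rw [a1, a1, opA']
        simp
      · simp [op, Letter.inp, hl]
    | cr b =>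
      rw [ex, ← k1]
      by_cases hl : i + 2 ≤ s.length
      · obtain ⟨P, x, y, B, rfl, rfl⟩ := split2 s i hl
        have a1 := fun κ => op_shift κ (.cr b) 0 (tr p.k' w ψ) P (x :: y :: B)
        have a2 := tr_shift p.k [(.cap, 0), (.cup (!b), 0)] (tr p.k' w ψ) P (x :: y :: B)
        rw [add_zero] at a1
        rw [a1, a1, opX', ← a2, key, ih]
        congr 1
        refine if_ctx_congr (by simp) (fun h => ?_) fun _ => rfl
        have h' : x.1 = (!b) ∧ y.1 = b := by simpa using h
        have : rn true ((P ++ x :: y :: B).map Prod.fst) (sh P.length [(.cap, 0), (.cup (!b), 0)]) =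
            (P ++ x :: y :: B).map Prod.fst := by
          rw [← List.length_map Prod.fst, List.map_append]
          simp only [sh, rn, List.map_cons, List.map_nil, List.foldl_cons, List.foldl_nil, nx_shift]
          simp [nx, ins, del, cp, h'.1, h'.2]
        rw [this]
        rfl
      · rw [if_neg (fun h => hl (by
          have := (List.getElem?_eq_some_iff.1 h.2).1
          rw [List.length_map] at this
          omega))]
        simp [op, Letter.inp, hl]

variable {p}

/-- Linear relations between oriented words. -/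
structure Lin (p : Par F N) (E : List Bool) (x : Word) (a : F) (y : Word) (b : F) (y' : Word) :
    Prop where
  eq : ∀ ψ s, s.map Prod.fst = E → Tw p ψ s x = a * Tw p ψ s y + b * Tw p ψ s y'

variable {E : List Bool} {x y y' : Word} {a b : F}

lemma Lin.ctx (u v : Word) {E' : List Bool} (h : Lin p E' x a y b y') (he : rn true E u = E') :
    Lin p E (u ++ (x ++ v)) a (u ++ (y ++ v)) b (u ++ (y' ++ v)) := ⟨fun ψ s hs => by
  simp only [Tw, tr_append]
  rw [← tr_lin]
  exact p.resp.tr u fun t ht => h.eq _ t (by rw [ht, hs, he])⟩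

lemma Lin.sh (P : List Bool) (h : Lin p E x a y b y') :
    Lin p (P ++ E) (sh P.length x) a (sh P.length y) b (sh P.length y') := ⟨fun ψ s hs => by
  obtain ⟨s1, s2, rfl, rfl, rfl⟩ := List.map_eq_append_iff.1 hs
  simp only [List.length_map, Tw, tr_shift]
  exact h.eq _ _ rfl⟩

lemma two' {e e' : Bool} {B : List Bool} {s : List (Lb N)} (h : s.map Prod.fst = e :: e' :: B) :
    ∃ a a' t, s = (e, a) :: (e', a') :: t := by
  obtain ⟨⟨_, a⟩, s, rfl, rfl, h1⟩ := List.map_eq_cons_iff.1 h
  obtain ⟨⟨_, a'⟩, s, rfl, rfl, -⟩ := List.map_eq_cons_iff.1 h1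
  exact ⟨a, a', s, rfl⟩

lemma pm_one (hl : p.l = 1) (b : Bool) : pm p.l b = 1 := by cases b <;> simp [pm, hl]

lemma lP (hl : p.l = 1) (b e : Bool) (B : List Bool) :
    Lin p (e :: e :: B) [(.cr b, 0)] 1 [(.cr (!b), 0)] (p.z b) [] := ⟨fun ψ s hs => by
  obtain ⟨a, a', t, rfl⟩ := two' hs
  have := skP p ψ t b e a a'
  simp only [pm_one hl, Tw, tr_cons, tr_nil] at this ⊢
  linear_combination this⟩

lemma lX (hl : p.l = 1) (b e : Bool) (B : List Bool) : Lin p (e :: (!e) :: B) [(.cr b, 0)] 1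
    [(.cr (!b), 0)] (p.z (!b)) [(.cap, 0), (.cup (!e), 0)] := ⟨fun ψ s hs => by
  obtain ⟨a, a', t, rfl⟩ := two' hs
  have := skX p ψ t b e a a'
  simp only [pm_one hl, Tw, tr_cons, tr_nil] at this ⊢
  linear_combination this⟩

lemma lU (hl : p.l = 1) (d b : Bool) (E : List Bool) :
    Lin p E [(.cup d, 0), (.cr b, 0)] (pm p.Q (!b)) [(.cup (!d), 0)] 0 [] := ⟨fun ψ s _ => by
  simpa [pm_one hl, Tw] using r1Cup p ψ s d b⟩

lemma lA (hl : p.l = 1) (b e : Bool) (B : List Bool) :
    Lin p (e :: (!e) :: B) [(.cr b, 0), (.cap, 0)] (pm p.Q (!b)) [(.cap, 0)] 0 [] :=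
  ⟨fun ψ s hs => by
    obtain ⟨a, a', t, rfl⟩ := two' hs
    simpa [pm_one hl, Tw] using r1Cap p ψ t b e a a'⟩

lemma lO (d : Bool) (E : List Bool) :
    Lin p E [(.cup d, 0), (.cap, 0)] (∑ a, p.α d a / p.α (!d) a) [] 0 [] := ⟨fun ψ s _ => by
  simpa [Tw] using eye p ψ s d⟩

lemma l0 (e : Bool) (B : List Bool) : Lin p (e :: e :: B) [(.cap, 0)] 0 [] 0 [] :=
  ⟨fun ψ s hs => by
    obtain ⟨a, a', t, rfl⟩ := two' hs
    simp [Tw, opA]⟩

end Pool.Agent.Lib.MP_3a4f2f_gt.H90
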