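import Pool.Agent.Lib.MP_3a4f2f_gt.H90.Kf

/-! Local identities of the unoriented state sum. -/

set_option autoImplicit false

namespace Pool.Agent.Lib.MP_3a4f2f_gt.H90

variable {F : Type} [Field F] {N : ℕ} {p : Par F N} {ψ : List (Lb N) → F} {s : List (Lb N)}
  {B E : List Bool}

lemma Eqv.tw {x y : Word} (h : Eqv p E x y) (ψ : List (Lb N) → F) (hs : s.map Prod.fst = E) :
    Tw p ψ s x = Tw p ψ s y := h.eq ψ s hs

lemma w0 (p : Par F N) (d : Bool) : p.w d ≠ 0 := by cases d <;> simp [Par.w, p.q0, p.Q0]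

lemma tw (p : Par F N) (b : Bool) : p.t b * p.w b = p.w (!b) := by
  cases b <;> simp [Par.w, Par.t, pm, p.q0, p.Q0]

lemma tt (p : Par F N) (b : Bool) : p.t b * p.t (!b) = 1 := pm_mul (div_ne_zero p.q0 p.Q0) b

lemma tQ (p : Par F N) (b : Bool) : p.t b * pm p.Q b = pm p.q b := by
  have := p.q0
  have := p.Q0
  cases b <;> simp [Par.t, pm] <;> field_simp

lemma tq (p : Par F N) (b : Bool) : p.t b * p.t b * pm p.Q b - p.t b * p.z b = pm p.Q (!b) := by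
  have := p.q0
  have := p.Q0
  cases b <;> simp [Par.t, Par.z, pm] <;> field_simp <;> ring

lemma zδ (p : Par F N) (b d : Bool) :
    p.z b * ∑ a, p.α d a / p.α (!d) a = pm p.Q b - pm p.Q (!b) := by
  have := p.loop d
  cases b <;> simp only [Par.z, pm, Bool.not_true, Bool.not_false, if_true, Bool.false_eq_true,
    if_false]
  · linear_combination -this
  · exact this

lemma eSU' (d b e : Bool) (B : List Bool) :
    Eqv p (e :: B) [(.cup d, 0), (.cr b, 1)] [(.cup d, 1), (.cr (!b), 0)] := by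
  simpa using (eSU d (!b) e B).symm

lemma eZig' (d : Bool) (B : List Bool) : Eqv p (d :: B) [(.cup (!d), 1), (.cap, 0)] [] := by
  simpa using eZig (!d) B

lemma lA' (hl : p.l = 1) (b e : Bool) (B : List Bool) :
    Lin p ((!e) :: e :: B) [(.cr b, 0), (.cap, 0)] (pm p.Q (!b)) [(.cap, 0)] 0 [] := by
  simpa using lA hl b (!e) B

lemma lX' (hl : p.l = 1) (b e : Bool) (B : List Bool) : Lin p ((!e) :: e :: B) [(.cr b, 0)] 1
    [(.cr (!b), 0)] (p.z (!b)) [(.cap, 0), (.cup e, 0)] := by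
  simpa using lX hl b (!e) B

lemma nat1 (d b e e' e'' : Bool) (B : List Bool) : Eqv p (e :: e' :: e'' :: B)
    [(.cap, 0), (.cup d, 0), (.cr b, 1), (.cr b, 0)]
    [(.cr b, 1), (.cr b, 0), (.cap, 1), (.cup d, 1)] :=
  ((Eqv.ctx [(.cap, 0)] [(.cr b, 0)] (eSU' d b e'' B) (by rfl)).trans
    (Eqv.ctx [(.cap, 0), (.cup d, 1)] [] (eR2' b e'' d ((!d) :: B)) (by rfl))).trans
    ((Eqv.ctx [(.cr b, 1)] [(.cup d, 1)] (eSA b e e'' e' B) (by rfl)).trans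
    (Eqv.ctx [] [(.cap, 0), (.cup d, 1)] ((eR2 b e' e'' B).sh [e]) (by rfl))).symm

lemma nat2 (d b e e' e'' : Bool) (B : List Bool) : Eqv p (e :: e' :: e'' :: B)
    [(.cr b, 0), (.cr b, 1), (.cap, 0), (.cup d, 0)]
    [(.cap, 1), (.cup d, 1), (.cr b, 0), (.cr b, 1)] :=
  ((Eqv.ctx [(.cr b, 0)] [(.cup d, 0)] (eSA' b e' e e'' B).symm (by rfl)).trans
    (Eqv.ctx [] [(.cap, 1), (.cup d, 0)] (eR2 b e e' (e'' :: B)) (by rfl))).trans
    ((Eqv.ctx [(.cap, 1)] [(.cr b, 1)] (eSU d b e B) (by rfl)).trans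
    (Eqv.ctx [(.cap, 1), (.cup d, 0)] [] ((eR2' b (!d) e B).sh [d]) (by rfl))).symm

lemma kZig (d e : Bool) (hs : s.map Prod.fst = e :: B) :
    tr p.k' [(.cup d, 1), (.cap, 0)] ψ s = tr p.k' [] ψ s := by
  have h1 := (eZig' (p := p) e B).tw ψ hs
  have h2 : Tw p ψ s [(.cup e, 1), (.cap, 0)] = _ :=
    (Lin.ctx [(.cup e, 1)] [] (l0 e ((!e) :: B)) (by rfl)).eq ψ s hs
  rw [ex_spec, ex_spec, hs]
  cases e <;> simp [ex, nx, ins, cp, w0, h2] <;> exact h1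

lemma kZag (d e : Bool) (hs : s.map Prod.fst = e :: B) :
    tr p.k' [(.cup d, 0), (.cap, 1)] ψ s = tr p.k' [] ψ s := by
  have h1 := (eZag (p := p) e B).tw ψ hs
  have h2 : Tw p ψ s [(.cup (!e), 0), (.cap, 1)] = _ :=
    (Lin.ctx [(.cup (!e), 0)] [] ((l0 e B).sh [!e]) (by cases e <;> rfl)).eq ψ s hs
  rw [ex_spec, ex_spec, hs]
  cases e <;> simp only [Bool.not_true, Bool.not_false] at h2 <;>
    simp [ex, nx, ins, cp, w0, h1, h2]

lemma kEye (d : Bool) : tr p.k' [(.cup d, 0), (.cap, 0)] ψ s =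
    (p.t false * ∑ a, p.α true a / p.α false a + p.t true * ∑ a, p.α false a / p.α true a) *
      tr p.k' [] ψ s := by
  have h1 := (lO (p := p) true _).eq ψ s rfl
  have h2 := (lO (p := p) false _).eq ψ s rfl
  rw [ex_spec, ex_spec]
  simp [ex, nx, ins, cp, h1, h2, Par.w, Par.t, pm]
  ring

lemma kSU (d b e : Bool) (hs : s.map Prod.fst = e :: B) :
    tr p.k' [(.cup d, 1), (.cr b, 0)] ψ s = tr p.k' [(.cup d, 0), (.cr (!b), 1)] ψ s := by
  have h1 := (eSU (p := p) true b e B).tw ψ hs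
  have h2 := (eSU (p := p) false b e B).tw ψ hs
  have h3 : Tw p ψ s [(.cup (!e), 1), (.cap, 0), (.cup e, 0)] = Tw p ψ s [(.cup e, 0)] :=
    (Eqv.ctx [] [(.cup e, 0)] (eZig' e B) (by rfl)).tw ψ hs
  have h4 : Tw p ψ s [(.cup e, 0), (.cap, 1), (.cup (!e), 1)] = Tw p ψ s [(.cup (!e), 1)] :=
    (Eqv.ctx [] [(.cup (!e), 1)] (eZag e B) (by rfl)).tw ψ hs
  have := p.q0
  have := p.Q0
  rw [ex_spec, ex_spec, hs]
  cases b <;> cases e <;> simp only [Bool.not_true, Bool.not_false] at h1 h2 h3 h4 <;>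
    simp [ex, nx, ins, cp, h1, h2, h3, h4] <;> simp only [Par.w, Par.t, Par.z, pm] <;> simp <;>
    field_simp <;> ring

lemma kSA (b e e' e'' : Bool) (hs : s.map Prod.fst = e :: e' :: e'' :: B) :
    tr p.k' [(.cr b, 0), (.cap, 1)] ψ s = tr p.k' [(.cr (!b), 1), (.cap, 0)] ψ s := by
  have h1 := (eSA (p := p) b e e' e'' B).tw ψ hs
  have h3 : e'' = (!b) → Tw p ψ s [(.cap, 0), (.cup (!b), 0), (.cap, 1)] = Tw p ψ s [(.cap, 0)] :=
    fun h => (Eqv.ctx [(.cap, 0)] [] (eZag (!b) B) (by rw [h]; rfl)).tw ψ hs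
  have h4 : e = (!b) → Tw p ψ s [(.cap, 1), (.cup b, 1), (.cap, 0)] = Tw p ψ s [(.cap, 1)] :=
    fun h => (Eqv.ctx [(.cap, 1)] [] (eZig b B) (by rw [h]; rfl)).tw ψ hs
  have h5 : e'' = b → Tw p ψ s [(.cap, 0), (.cup (!b), 0), (.cap, 1)] = _ := fun h =>
    (Lin.ctx [(.cap, 0), (.cup (!b), 0)] [] ((l0 b B).sh [!b])
      (by rw [h]; cases b <;> rfl)).eq ψ s hs
  have h6 : e = b → Tw p ψ s [(.cap, 1), (.cup b, 1), (.cap, 0)] = _ := fun h =>
    (Lin.ctx [(.cap, 1), (.cup b, 1)] [] (l0 b ((!b) :: B)) (by rw [h]; rfl)).eq ψ s hs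
  have h7 : e = e' → Tw p ψ s [(.cap, 0)] = _ := fun h =>
    (l0 e (e'' :: B)).eq ψ s (by rw [hs, h])
  have h8 : e' = e'' → Tw p ψ s [(.cap, 1)] = _ := fun h =>
    ((l0 e' B).sh [e]).eq ψ s (by rw [hs, h]; rfl)
  have := p.q0
  have := p.Q0
  rw [ex_spec, ex_spec, hs]
  cases b <;> cases e <;> cases e' <;> cases e'' <;>
    simp only [Bool.not_true, Bool.not_false, forall_true_left, zero_mul, add_zero,
      Bool.false_eq_true, Bool.true_eq_false, false_imp_iff] at h1 h3 h4 h5 h6 h7 h8 <;>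
    simp [ex, nx, swp, *] <;> simp only [Par.w, Par.t, Par.z, pm] <;> simp <;>
    field_simp <;> ring

lemma kR2 (hl : p.l = 1) (b e e' : Bool) (hs : s.map Prod.fst = e :: e' :: B) :
    tr p.k' [(.cr b, 0), (.cr (!b), 0)] ψ s = tr p.k' [] ψ s := by
  have h1 := (eR2 (p := p) b e e' B).tw ψ hs
  rw [ex_spec, ex_spec, hs]
  by_cases h : e = (!b) ∧ e' = b
  · obtain ⟨h, h'⟩ := h
    subst e e'
    have h2 := (lX' hl b b B).eq ψ s hs
    have h3 : Tw p ψ s [(.cr b, 0), (.cap, 0), (.cup b, 0)] =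
        _ * Tw p ψ s [(.cap, 0), (.cup b, 0)] + _ :=
      (Lin.ctx [] [(.cup b, 0)] (lA' hl b b B) (by rfl)).eq ψ s hs
    have h4 : Tw p ψ s [(.cap, 0), (.cup (!b), 0), (.cr (!b), 0)] =
        _ * Tw p ψ s [(.cap, 0), (.cup (!!b), 0)] + _ :=
      (Lin.ctx [(.cap, 0)] [] (lU hl (!b) (!b) B) (by rfl)).eq ψ s hs
    rw [Bool.not_not] at h4
    have hz : p.z b = pm p.q b - pm p.q (!b) := rfl
    simp [ex, nx, swp, h1, h2, h3, h4, z_not]
    linear_combination (p.z b * Tw p ψ s [(.cap, 0), (.cup b, 0)]) * (tQ p (!b) - tQ p b + hz)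
  · revert h
    cases b <;> cases e <;> cases e' <;> simp [ex, nx, swp] <;> exact h1

lemma kCu (hl : p.l = 1) (d d' b : Bool) : tr p.k' [(.cup d, 0), (.cr b, 0)] ψ s =
    p.t b * pm p.Q (!b) * tr p.k' [(.cup d', 0)] ψ s := by
  have h1 := (lU hl true b _).eq ψ s rfl
  have h2 := (lU hl false b _).eq ψ s rfl
  have h3 : Tw p ψ s [(.cup (!b), 0), (.cap, 0), (.cup (!b), 0)] =
      _ * Tw p ψ s [(.cup (!b), 0)] + _ :=
    (Lin.ctx [] [(.cup (!b), 0)] (lO (!b) _) (by rfl)).eq ψ s rfl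
  have h4 := zδ p b (!b)
  have h5 := tw p b
  have := p.q0
  have := p.Q0
  rw [ex_spec, ex_spec]
  generalize (∑ a, p.α (!b) a / p.α (!!b) a) = δ at h3 h4
  cases b <;> simp only [Bool.not_true, Bool.not_false] at h1 h2 h3 h4 h5 <;>
    simp [ex, nx, ins, cp, h1, h2, h3]
  · have e : p.w true * p.z false - p.w true * p.t false * (pm p.Q false - pm p.Q true) +
        p.w false * pm p.Q true = p.t false * pm p.Q true * p.w true := by
      simp [Par.w, Par.t, Par.z, pm]; field_simp; ring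
    linear_combination Tw p ψ s [(.cup true, 0)] * (e - p.w true * p.t false * h4) -
      pm p.Q true * Tw p ψ s [(.cup false, 0)] * h5
  · have e : p.w false * p.z true - p.w false * p.t true * (pm p.Q true - pm p.Q false) +
        p.w true * pm p.Q false = p.t true * pm p.Q false * p.w false := by
      simp [Par.w, Par.t, Par.z, pm]; field_simp; ring
    linear_combination Tw p ψ s [(.cup false, 0)] * (e - p.w false * p.t true * h4) -
      pm p.Q false * Tw p ψ s [(.cup true, 0)] * h5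

lemma kCa (hl : p.l = 1) (b e e' : Bool) (hs : s.map Prod.fst = e :: e' :: B) :
    tr p.k' [(.cr b, 0), (.cap, 0)] ψ s = p.t b * pm p.Q (!b) * tr p.k' [(.cap, 0)] ψ s := by
  rw [ex_spec, ex_spec, hs]
  have := p.q0
  have := p.Q0
  rcases Bool.eq_or_eq_not e e' with h | h <;> subst e
  · have h1 : Tw p ψ s [(.cr b, 0), (.cap, 0)] = _ :=
      (Lin.ctx [(.cr b, 0)] [] (l0 e' B) (by rfl)).eq ψ s hs
    have h2 := (l0 (p := p) e' B).eq ψ s hs
    cases b <;> cases e' <;> simp [ex, nx, swp, h1, h2]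
  have h1 := (lA' hl b e' B).eq ψ s hs
  have h3 : Tw p ψ s [(.cap, 0), (.cup (!b), 0), (.cap, 0)] = _ * Tw p ψ s [(.cap, 0)] + _ :=
    ((Lin.ctx [(.cap, 0)] [] (lO (!b) B) (by rfl)).eq ψ s hs)
  have h4 := zδ p b (!b)
  generalize (∑ a, p.α (!b) a / p.α (!!b) a) = δ at h3 h4
  rcases Bool.eq_or_eq_not e' b with h | h <;> subst e'
  · have e : (p.w (!b))⁻¹ * pm p.Q (!b) + p.z b * (p.w b)⁻¹ -
        p.t b * (p.w b)⁻¹ * (pm p.Q b - pm p.Q (!b)) = p.t b * pm p.Q (!b) * (p.w b)⁻¹ := by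
      cases b <;> simp [Par.w, Par.t, Par.z, pm] <;> field_simp <;> ring
    simp [ex, nx, swp, h1, h3]
    linear_combination Tw p ψ s [(.cap, 0)] * (e - p.t b * (p.w b)⁻¹ * h4)
  · have e : (p.w b)⁻¹ = p.t b * (p.w (!b))⁻¹ := by
      cases b <;> simp [Par.w, Par.t, pm] <;> field_simp
    simp [ex, nx, swp, h1, e]
    ring

lemma kSk (hl : p.l = 1) (d e e' : Bool) (hs : s.map Prod.fst = e :: e' :: B) :
    tr p.k' [(.cr true, 0)] ψ s = 1 * tr p.k' [(.cr false, 0)] ψ s +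
      p.z true * tr p.k' [] ψ s + -p.z true * tr p.k' [(.cap, 0), (.cup d, 0)] ψ s := by
  rw [ex_spec, ex_spec, ex_spec, ex_spec, hs]
  have := p.q0
  have := p.Q0
  rcases Bool.eq_or_eq_not e e' with h | h <;> subst e
  · have h1 := (lP hl true e' B).eq ψ s hs
    have h2 : ∀ d, Tw p ψ s [(.cap, 0), (.cup d, 0)] = _ := fun d =>
      (Lin.ctx [] [(.cup d, 0)] (l0 e' B) (by rfl)).eq ψ s hs
    cases e' <;> simp [ex, h1, h2]
  have h1 := (lX' hl true e' B).eq ψ s hs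
  cases e' <;> simp [ex, h1] <;> simp only [Par.w, Par.t, Par.z, pm] <;> simp <;>
    field_simp <;> ring

lemma kR3 (hl : p.l = 1) (b e e' e'' : Bool) (hs : s.map Prod.fst = e :: e' :: e'' :: B) :
    tr p.k' [(.cr b, 0), (.cr b, 1), (.cr b, 0)] ψ s =
      tr p.k' [(.cr b, 1), (.cr b, 0), (.cr b, 1)] ψ s := by
  have r3 := (eR3 (p := p) b e e' e'' B).tw ψ hs
  have n1 := (nat1 (p := p) (!b) b e e' e'' B).tw ψ hs
  have n2 := (nat2 (p := p) (!b) b e e' e'' B).tw ψ hs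
  rw [ex_spec, ex_spec, hs]
  by_cases h : e = (!b) ∧ e'' = b
  swap
  · revert h
    rcases Bool.eq_or_eq_not e b with h | h <;> rcases Bool.eq_or_eq_not e' b with h' | h' <;>
      rcases Bool.eq_or_eq_not e'' b with h'' | h'' <;> subst e e' e'' <;>
      simp [ex, nx, swp, r3, n1, n2]
  obtain ⟨h, h'⟩ := h
  subst e e''
  rcases Bool.eq_or_eq_not e' b with h | h <;> subst e'
  · have a1 : Tw p ψ s [(.cr b, 0), (.cr b, 0)] = _ * Tw p ψ s [(.cr b, 0), (.cr (!b), 0)] +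
        _ * Tw p ψ s [(.cr b, 0), (.cap, 0), (.cup (!b), 0)] :=
      (Lin.ctx [(.cr b, 0)] [] (lX hl b b (b :: B)) (by rfl)).eq ψ s hs
    have a2 := (eR2 (p := p) b _ _ _).tw ψ hs
    have a3 : Tw p ψ s [(.cr b, 0), (.cap, 0), (.cup (!b), 0)] =
        _ * Tw p ψ s [(.cap, 0), (.cup (!b), 0)] + _ :=
      (Lin.ctx [] [(.cup (!b), 0)] (lA' hl b b (b :: B)) (by rfl)).eq ψ s hs
    have a4 : Tw p ψ s [(.cr b, 0), (.cap, 1), (.cup (!b), 1), (.cr b, 0)] =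
        Tw p ψ s [(.cr (!b), 1), (.cap, 0), (.cup (!b), 0), (.cr (!b), 1)] :=
      ((Eqv.ctx [] [(.cup (!b), 1), (.cr b, 0)] (eSA b (!b) b b B) (by rfl)).trans
        (Eqv.ctx [(.cr (!b), 1), (.cap, 0)] [] (eSU (!b) b b B) (by rfl))).tw ψ hs
    have a5 : ∀ v, Tw p ψ s ((.cr b, 1) :: v) = _ * Tw p ψ s ((.cr (!b), 1) :: v) +
        _ * Tw p ψ s v := fun v => (Lin.ctx [] v ((lP hl b b B).sh [!b]) (by rfl)).eq ψ s hs
    have a6 : Tw p ψ s [(.cr (!b), 1), (.cap, 0), (.cup (!b), 0), (.cr b, 1)] =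
        _ * Tw p ψ s [(.cr (!b), 1), (.cap, 0), (.cup (!b), 0), (.cr (!b), 1)] +
        _ * Tw p ψ s [(.cr (!b), 1), (.cap, 0), (.cup (!b), 0)] :=
      (Lin.ctx [(.cr (!b), 1), (.cap, 0), (.cup (!b), 0)] [] ((lP hl b b B).sh [!b])
        (by cases b <;> rfl)).eq ψ s hs
    have a9 : Tw p ψ s [(.cr (!b), 1), (.cr b, 1)] = Tw p ψ s [] :=
      ((eR2' b b b B).sh [!b]).tw ψ hs
    have a10 : Tw p ψ s [(.cap, 0), (.cup (!b), 0), (.cr b, 1), (.cap, 0), (.cup (!b), 0)] =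
        Tw p ψ s [(.cap, 0), (.cup (!b), 1), (.cr (!b), 0), (.cap, 0), (.cup (!b), 0)] :=
      (Eqv.ctx [(.cap, 0)] [(.cap, 0), (.cup (!b), 0)] (eSU' (!b) b b B) (by rfl)).tw ψ hs
    have a11 : Tw p ψ s [(.cap, 0), (.cup (!b), 1), (.cr (!b), 0), (.cap, 0), (.cup (!b), 0)] =
        _ * Tw p ψ s [(.cap, 0), (.cup (!b), 1), (.cap, 0), (.cup (!b), 0)] + _ :=
      (Lin.ctx [(.cap, 0), (.cup (!b), 1)] [(.cup (!b), 0)] (lA hl (!b) b ((!!b) :: B))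
        (by rfl)).eq ψ s hs
    have a12 : Tw p ψ s [(.cap, 0), (.cup (!b), 1), (.cap, 0), (.cup (!b), 0)] =
        Tw p ψ s [(.cap, 0), (.cup (!b), 0)] :=
      (Eqv.ctx [(.cap, 0)] [(.cup (!b), 0)] (eZig' b B) (by rfl)).tw ψ hs
    rw [Bool.not_not] at a11
    simp [ex, nx, swp]
    rw [r3, n1, a1, a2, a3, a4, a5 [(.cap, 0), (.cup (!b), 0), (.cr b, 1)], a6,
      a5 [(.cap, 0), (.cup (!b), 0)], a5 [(.cr b, 1)], a9, a10, a11, a12, z_not]
    linear_combination (p.z b * p.z b * Tw p ψ s [(.cap, 0), (.cup (!b), 0)]) * tq p b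
  · have a1 : Tw p ψ s [(.cr b, 1), (.cr b, 1)] = _ * Tw p ψ s [(.cr b, 1), (.cr (!b), 1)] +
        _ * Tw p ψ s [(.cr b, 1), (.cap, 1), (.cup (!b), 1)] :=
      (Lin.ctx [(.cr b, 1)] [] ((lX hl b b B).sh [!b]) (by rfl)).eq ψ s hs
    have a2 : Tw p ψ s [(.cr b, 1), (.cr (!b), 1)] = Tw p ψ s [] :=
      ((eR2 b (!b) b B).sh [!b]).tw ψ hs
    have a3 : Tw p ψ s [(.cr b, 1), (.cap, 1), (.cup (!b), 1)] =
        _ * Tw p ψ s [(.cap, 1), (.cup (!b), 1)] + _ :=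
      (Lin.ctx [] [(.cup (!b), 1)] ((lA' hl b b B).sh [!b]) (by rfl)).eq ψ s hs
    have a4 : Tw p ψ s [(.cr b, 1), (.cap, 0), (.cup (!b), 0), (.cr b, 1)] =
        Tw p ψ s [(.cr (!b), 0), (.cap, 1), (.cup (!b), 1), (.cr (!b), 0)] :=
      ((Eqv.ctx [] [(.cup (!b), 0), (.cr b, 1)] (eSA' b (!b) (!b) b B).symm (by rfl)).trans
        (Eqv.ctx [(.cr (!b), 0), (.cap, 1)] [] (eSU' (!b) b (!b) B) (by rfl))).tw ψ hs
    have a5 : ∀ v, Tw p ψ s ((.cr b, 0) :: v) = _ * Tw p ψ s ((.cr (!b), 0) :: v) +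
        _ * Tw p ψ s v := fun v => (Lin.ctx [] v (lP hl b (!b) (b :: B)) (by rfl)).eq ψ s hs
    have a6 : Tw p ψ s [(.cr (!b), 0), (.cap, 1), (.cup (!b), 1), (.cr b, 0)] =
        _ * Tw p ψ s [(.cr (!b), 0), (.cap, 1), (.cup (!b), 1), (.cr (!b), 0)] +
        _ * Tw p ψ s [(.cr (!b), 0), (.cap, 1), (.cup (!b), 1)] :=
      (Lin.ctx [(.cr (!b), 0), (.cap, 1), (.cup (!b), 1)] [] (lP hl b (!b) ((!!b) :: B))
        (by rfl)).eq ψ s hs
    have a9 : Tw p ψ s [(.cr (!b), 0), (.cr b, 0)] = Tw p ψ s [] :=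
      (eR2' b (!b) (!b) (b :: B)).tw ψ hs
    have a10 : Tw p ψ s [(.cap, 1), (.cup (!b), 1), (.cr b, 0), (.cap, 1), (.cup (!b), 1)] =
        Tw p ψ s [(.cap, 1), (.cup (!b), 0), (.cr (!b), 1), (.cap, 1), (.cup (!b), 1)] :=
      (Eqv.ctx [(.cap, 1)] [(.cap, 1), (.cup (!b), 1)] (eSU (!b) b (!b) B) (by rfl)).tw ψ hs
    have a11 : Tw p ψ s [(.cap, 1), (.cup (!b), 0), (.cr (!b), 1), (.cap, 1), (.cup (!b), 1)] =
        _ * Tw p ψ s [(.cap, 1), (.cup (!b), 0), (.cap, 1), (.cup (!b), 1)] + _ :=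
      (Lin.ctx [(.cap, 1), (.cup (!b), 0)] [(.cup (!b), 1)] ((lA' hl (!b) (!b) B).sh [!b])
        (by rfl)).eq ψ s hs
    have a12 : Tw p ψ s [(.cap, 1), (.cup (!b), 0), (.cap, 1), (.cup (!b), 1)] =
        Tw p ψ s [(.cap, 1), (.cup (!b), 1)] :=
      (Eqv.ctx [(.cap, 1)] [(.cup (!b), 1)] (eZag (!b) B) (by rfl)).tw ψ hs
    rw [Bool.not_not] at a11
    simp [ex, nx, swp]
    rw [r3, n2, a1, a2, a3, a4, a5 [(.cap, 1), (.cup (!b), 1), (.cr b, 0)], a6,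
      a5 [(.cap, 1), (.cup (!b), 1)], a5 [(.cr b, 0)], a9, a10, a11, a12, z_not]
    linear_combination (-p.z b * p.z b * Tw p ψ s [(.cap, 1), (.cup (!b), 1)]) * tq p b

end Pool.Agent.Lib.MP_3a4f2f_gt.H90
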