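import Pool.Agent.Lib.MP_3a4f2f_gt.H90.Km
import Pool.Agent.Lib.MP_3a4f2f_gt.H90.Ex

/-! The Kauffman polynomial exists. -/

set_option autoImplicit false

namespace Pool.Agent.Lib.MP_3a4f2f_gt.H90

open LaurentPolynomial Complex

section
variable {F : Type} [Field F] {N : ℕ} {p : Par F N} (u v : Word)

lemma K_loc {P B : List Bool} (hE : rn false [] u = P ++ B) (x y : Word) (a : F)
    (h : ∀ ψ s, s.length = B.length → tr p.k' x ψ s = a * tr p.k' y ψ s) :
    Zs p.k' (u ++ (sh P.length x ++ v)) = a * Zs p.k' (u ++ (sh P.length y ++ v)) := by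
  simpa using Zs_loc p.resp' u v hE x y [] [] a 0 0 fun ψ s hs => by
    simpa using h ψ s (by rw [← hs, List.length_map])

lemma len1 {A : Type} {s : List A} {n : ℕ} (h : s.length = n + 1) : ∃ x t, s = x :: t :=
  List.exists_cons_of_length_eq_add_one h

lemma len2 {A : Type} {s : List A} {n : ℕ} (h : s.length = n + 1 + 1) :
    ∃ x y t, s = x :: y :: t := by
  obtain ⟨x, s, rfl⟩ := len1 h
  obtain ⟨y, s, rfl⟩ := len1 (Nat.succ.inj h)
  exact ⟨_, _, _, rfl⟩

lemma len3 {A : Type} {s : List A} {n : ℕ} (h : s.length = n + 1 + 1 + 1) :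
    ∃ x y w t, s = x :: y :: w :: t := by
  obtain ⟨x, s, rfl⟩ := len1 h
  obtain ⟨y, w, s, rfl⟩ := len2 (Nat.succ.inj h)
  exact ⟨_, _, _, _, rfl⟩

lemma K_mv (hl : p.l = 1) {x y : Word} (hm : RMove x y) (hV : V false (u ++ (x ++ v))) :
    Zs p.k' (u ++ (x ++ v)) = Zs p.k' (u ++ (y ++ v)) := by
  have hv := hV.tail
  rw [← one_mul (Zs p.k' (u ++ (y ++ v)))]
  cases hm with
  | comm k l i t =>
    simpa using Zs_lin p.resp' u v [(k, i), (l, i + t + k.out)] [(l, i + t + k.inp), (k, i)] [] []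
      1 0 0 fun ψ s hs => by
      have h1 := val_len hv
      have h2 := val_len2 hv
      rw [← hs, List.length_map] at h1 h2
      simp only at h1 h2
      simpa using p.resp'.comm k l i t ψ s (by omega)
  | zig d i =>
    obtain ⟨P, a, B, hE, rfl⟩ := split1 _ i (by simpa [Letter.inp] using val_len hv)
    exact K_loc u v hE [(.cup d, 1), (.cap, 0)] [] 1 fun ψ s hs => by
      obtain ⟨x, t, rfl⟩ := len1 hs
      rw [one_mul]; exact kZig d _ rfl
  | zag d i =>
    obtain ⟨P, a, B, hE, rfl⟩ := split1 (rn false [] u) i (by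
      have := val_len2 hv; simp [Letter.inp, Letter.out] at this; omega)
    exact K_loc u v hE [(.cup d, 0), (.cap, 1)] [] 1 fun ψ s hs => by
      obtain ⟨x, t, rfl⟩ := len1 hs
      rw [one_mul]; exact kZag d _ rfl
  | slideCup d b i =>
    obtain ⟨P, a, B, hE, rfl⟩ := split1 _ i (by simpa [Letter.inp] using val_len hv)
    exact K_loc u v hE [(.cup d, 1), (.cr b, 0)] [(.cup d, 0), (.cr (!b), 1)] 1 fun ψ s hs => by
      obtain ⟨x, t, rfl⟩ := len1 hs
      rw [one_mul]; exact kSU d b _ rfl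
  | slideCap b i =>
    obtain ⟨P, a, c, e, B, hE, rfl⟩ := split3 (rn false [] u) i (by
      have := val_len2 hv; have := val_len hv; simp [Letter.inp, Letter.out] at *; omega)
    exact K_loc u v hE [(.cr b, 0), (.cap, 1)] [(.cr (!b), 1), (.cap, 0)] 1 fun ψ s hs => by
      obtain ⟨x, y, w, t, rfl⟩ := len3 hs
      rw [one_mul]; exact kSA b _ _ _ rfl
  | r2 b i =>
    obtain ⟨P, a, c, B, hE, rfl⟩ := split2 _ i (by simpa [Letter.inp] using val_len hv)
    exact K_loc u v hE [(.cr b, 0), (.cr (!b), 0)] [] 1 fun ψ s hs => by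
      obtain ⟨x, y, t, rfl⟩ := len2 hs
      rw [one_mul]; exact kR2 hl b _ _ rfl
  | r3 b i =>
    obtain ⟨P, a, c, e, B, hE, rfl⟩ := split3 (rn false [] u) i (by
      have := val_len2 hv; have := val_len hv; simp [Letter.inp, Letter.out] at *; omega)
    exact K_loc u v hE [(.cr b, 0), (.cr b, 1), (.cr b, 0)] [(.cr b, 1), (.cr b, 0), (.cr b, 1)] 1
      fun ψ s hs => by
        obtain ⟨x, y, w, t, rfl⟩ := len3 hs
        rw [one_mul]; exact kR3 hl b _ _ _ rfl

lemma K_cu (hl : p.l = 1) (d d' b : Bool) (i : ℕ)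
    (hv : V false (u ++ (.cup d, i) :: (.cr b, i) :: v)) :
    Zs p.k' (u ++ (.cup d, i) :: (.cr b, i) :: v) =
      p.t b * pm p.Q (!b) * Zs p.k' (u ++ (.cup d', i) :: v) := by
  obtain ⟨P, B, hE, rfl⟩ := split0 (rn false [] u) i (by simpa [Letter.inp] using val_len hv.tail)
  exact K_loc u v hE [(.cup d, 0), (.cr b, 0)] [(.cup d', 0)] _ fun ψ s _ => kCu hl d d' b

lemma K_ca (hl : p.l = 1) (b : Bool) (i : ℕ) (hv : V false (u ++ (.cr b, i) :: (.cap, i) :: v)) :
    Zs p.k' (u ++ (.cr b, i) :: (.cap, i) :: v) =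
      p.t b * pm p.Q (!b) * Zs p.k' (u ++ (.cap, i) :: v) := by
  obtain ⟨P, e, e', B, hE, rfl⟩ := split2 (rn false [] u) i (by
    simpa [Letter.inp] using val_len hv.tail)
  exact K_loc u v hE [(.cr b, 0), (.cap, 0)] [(.cap, 0)] _ fun ψ s hs => by
    obtain ⟨x, y, t, rfl⟩ := len2 hs
    exact kCa hl b _ _ rfl

lemma K_eye (d : Bool) (i : ℕ) (hv : V false (u ++ (.cup d, i) :: (.cap, i) :: v)) :
    Zs p.k' (u ++ (.cup d, i) :: (.cap, i) :: v) =
      (p.t false * ∑ a, p.α true a / p.α false a + p.t true * ∑ a, p.α false a / p.α true a) *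
        Zs p.k' (u ++ v) := by
  obtain ⟨P, B, hE, rfl⟩ := split0 (rn false [] u) i (by simpa [Letter.inp] using val_len hv.tail)
  exact K_loc u v hE [(.cup d, 0), (.cap, 0)] [] _ fun ψ s _ => kEye d

lemma K_sk (hl : p.l = 1) (d b : Bool) (i : ℕ) (hv : V false (u ++ (.cr b, i) :: v)) :
    Zs p.k' (u ++ (.cr true, i) :: v) = 1 * Zs p.k' (u ++ (.cr false, i) :: v) +
      p.z true * Zs p.k' (u ++ v) + -p.z true * Zs p.k' (u ++ (.cap, i) :: (.cup d, i) :: v) := by
  obtain ⟨P, e, e', B, hE, rfl⟩ := split2 (rn false [] u) i (by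
    simpa [Letter.inp] using val_len hv.tail)
  exact Zs_loc p.resp' u v hE [(.cr true, 0)] [(.cr false, 0)] [] [(.cap, 0), (.cup d, 0)] _ _ _
    fun ψ s hs => by
      obtain ⟨x, y, t, rfl⟩ := len2 (s := s) (by rw [← List.length_map (fun _ => true), hs]; rfl)
      exact kSk hl d _ _ rfl

lemma K_flag (d d' : Bool) (i : ℕ) :
    Zs p.k' (u ++ (.cup d, i) :: v) = Zs p.k' (u ++ (.cup d', i) :: v) := by
  simp only [Zs, tr_append, tr_cons]
  congr 1

end

/-- Factors that turn the difference relation into the sum relation. -/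
noncomputable def fl : Letter × ℕ → ℂ
  | (.cup _, i) => (-1) ^ i
  | (.cap, i) => -(-1) ^ i
  | (.cr b, _) => if b then I else -I

/-- Their product. -/
noncomputable def fw (w : Word) : ℂ := (w.map fl).prod

lemma fw_append (u v : Word) : fw (u ++ v) = fw u * fw v := by simp [fw]
lemma fw_cons (g : Letter × ℕ) (v : Word) : fw (g :: v) = fl g * fw v := by simp [fw]

lemma neg_sq (i : ℕ) : (-1 : ℂ) ^ i * (-1) ^ i = 1 := by rw [← mul_pow]; simp

lemma fw_mv {x y : Word} (h : RMove x y) : fw x = fw y := by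
  cases h with
  | comm k l i t => cases k <;> cases l <;> simp [fw, fl, Letter.inp, Letter.out, pow_add, mul_comm]
  | zig d i => simp [fw, fl, pow_succ, neg_sq]
  | zag d i => simp [fw, fl, pow_succ, neg_sq]
  | slideCup d b i => cases b <;> simp [fw, fl, pow_succ]
  | slideCap b i => cases b <;> simp [fw, fl, pow_succ]
  | r2 b i => cases b <;> simp [fw, fl]
  | r3 b i => simp [fw, fl]

/-- `z = i (q - 1/q)`. -/
noncomputable def zC (k : ℕ) : ℂˣ :=
  Units.mk0 (I * ((zk k : ℚ) : ℂ)) (mul_ne_zero I_ne_zero (Rat.cast_ne_zero.2 (zk k).ne_zero))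

/-- `a = -i q ^ (2 n + 1)`. -/
noncomputable def aC (k n : ℕ) : ℂˣ := Units.mk0 (-I * ((qk k ^ (2 * n + 1) : ℚ) : ℂ))
  (mul_ne_zero (neg_ne_zero.2 I_ne_zero) (Rat.cast_ne_zero.2 (pow_ne_zero _ (qk0 k))))

lemma zC_inj : Function.Injective zC := fun _ _ h =>
  zk_inj (Units.ext (Rat.cast_injective (mul_left_cancel₀ I_ne_zero (congrArg Units.val h))))

lemma aC_inj (k : ℕ) : Function.Injective (aC k) := fun a b h => by
  have := pow_right_injective₀ (by have := qk_gt k; positivity) (qk_gt k).ne'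
    (Rat.cast_injective (mul_left_cancel₀ (neg_ne_zero.2 I_ne_zero) (congrArg Units.val h)))
  omega

/-- Parameters. -/
noncomputable def pK (i : ℕ × ℕ) : Par ℚ (i.2 + 1) := mkPar (qk i.1) 1 (qk0 _) one_ne_zero _

/-- All evaluations. -/
noncomputable def ιK : L2 →+* (ℕ × ℕ → ℂ) := RingHom.pi fun i => ev2 (zC i.1) (aC i.1 i.2)

/-- All state sums. -/
noncomputable def ZK (w : Word) : ℕ × ℕ → ℂ := fun i => fw w * ((Zs (pK i).k' w : ℚ) : ℂ)

/-- Value of the circle. -/
noncomputable def δK : L2 := C (T (if false then 1 else -1)) *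
  (T (if true then 1 else -1) + T (if false then 1 else -1)) - 1

lemma ιK_T (b : Bool) (i : ℕ × ℕ) : ιK (T (if b then -1 else 1)) i =
    (if b then I else -I) * (((pK i).t b * pm (pK i).Q (!b) : ℚ) : ℂ) := by
  have h0 : ((qk i.1 : ℚ) : ℂ) ≠ 0 := Rat.cast_ne_zero.2 (qk0 _)
  have : ιK (T (if !b then 1 else -1)) i = _ := ev2_T _ _ (!b)
  cases b <;> simp only [Bool.not_true, Bool.not_false, if_true, Bool.false_eq_true, if_false] at * <;>
    rw [this] <;> simp [pm, aC, pK, mkPar, Par.t] <;> field_simp <;> ring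

lemma ιK_z (i : ℕ × ℕ) : ιK (C (T 1)) i = I * (((pK i).z true : ℚ) : ℂ) := ev2_C _ _ true

lemma ιK_δ (i : ℕ × ℕ) : ιK δK i = -(((pK i).t false * ∑ a, (pK i).α true a / (pK i).α false a +
    (pK i).t true * ∑ a, (pK i).α false a / (pK i).α true a : ℚ) : ℂ) := by
  have hz := sub_inv_ne (qk_gt i.1)
  have h1 := eq_div_of_mul_eq hz ((mul_comm _ _).trans ((pK i).loop true))
  have h2 := eq_div_of_mul_eq hz ((mul_comm _ _).trans ((pK i).loop false))
  simp only [Bool.not_true, Bool.not_false] at h1 h2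
  have h3 : ιK (T (if true then 1 else -1)) i = _ := ιK_T false i
  have h4 : ιK (T (if false then 1 else -1)) i = _ := ιK_T true i
  have h5 : ιK (C (T (if false then 1 else -1))) i = _ := ev2_C _ _ false
  have e : (pK i).t false * (((pK i).Q - (pK i).Q⁻¹) / (qk i.1 - (qk i.1)⁻¹)) +
      (pK i).t true * (((pK i).Q - (pK i).Q⁻¹) / (qk i.1 - (qk i.1)⁻¹)) =
      (qk i.1 - (qk i.1)⁻¹)⁻¹ * ((pK i).t false * pm (pK i).Q (!false) -
        (pK i).t true * pm (pK i).Q (!true)) + 1 := by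
    have := (pK i).Q0
    have := qk0 i.1
    have e0 : ((pK i).t false + (pK i).t true) * ((pK i).Q - (pK i).Q⁻¹) =
        (pK i).t false * pm (pK i).Q (!false) - (pK i).t true * pm (pK i).Q (!true) +
          (qk i.1 - (qk i.1)⁻¹) := by
      simp [Par.t, pm, show (pK i).q = qk i.1 from rfl]
      field_simp
      ring
    linear_combination (qk i.1 - (qk i.1)⁻¹)⁻¹ * e0 + mul_inv_cancel₀ hz
  rw [h1, h2, e, δK, map_sub, map_mul, map_add, map_one, Pi.sub_apply, Pi.mul_apply, Pi.add_apply,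
    h3, h4, h5]
  have hz' : (((qk i.1 - (qk i.1)⁻¹ : ℚ)) : ℂ) ≠ 0 := Rat.cast_ne_zero.2 hz
  simp only [pm, zC, zk, Units.val_mk0, if_true, Bool.false_eq_true, if_false, Rat.cast_add,
    Rat.cast_mul (qk i.1 - (qk i.1)⁻¹)⁻¹, Rat.cast_inv (qk i.1 - (qk i.1)⁻¹), Rat.cast_one,
    Rat.cast_sub (_ * _), Pi.one_apply]
  field_simp
  ring

lemma δK_ne (i : ℕ × ℕ) : ιK δK i ≠ 0 := by
  have hq := qk_gt i.1
  have hQ : 1 < (pK i).Q := one_lt_pow₀ hq (Nat.succ_ne_zero i.2)
  have hz : 0 < qk i.1 - (qk i.1)⁻¹ := by have := inv_lt_one_of_one_lt₀ hq; linarith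
  have hd : ∀ d, 0 < ∑ a, (pK i).α d a / (pK i).α (!d) a := fun d =>
    pos_of_mul_pos_left (b := qk i.1 - (qk i.1)⁻¹) (by
      have := inv_lt_one_of_one_lt₀ hQ
      rw [mul_comm, show qk i.1 = (pK i).q from rfl, (pK i).loop d]; linarith) hz.le
  have ht : ∀ b, 0 < (pK i).t b := fun b => by
    have : 0 < (pK i).q / (pK i).Q := div_pos (by change 0 < qk i.1; linarith) (by linarith)
    cases b
    exacts [inv_pos.2 this, this]
  rw [ιK_δ, neg_ne_zero, Rat.cast_ne_zero]
  exact (add_pos (mul_pos (ht _) (hd true)) (mul_pos (ht _) (hd false))).ne'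

lemma ιK_inj {r s : L2} (h : ιK δK * ιK r = ιK δK * ιK s) : r = s := by
  refine sub_eq_zero.1 (ev2_inj zC aC zC_inj aC_inj _ fun k n => ?_)
  have := mul_left_cancel₀ (δK_ne (k, n)) (congrFun h (k, n))
  rw [map_sub]
  exact sub_eq_zero.2 this

variable (u v : Word)

lemma ZK_cu (d d' b : Bool) (i : ℕ) (hv : V false (u ++ (.cup d, i) :: (.cr b, i) :: v)) :
    ZK (u ++ (.cup d, i) :: (.cr b, i) :: v) =
      ιK (T (if b then -1 else 1)) * ZK (u ++ (.cup d', i) :: v) := funext fun j => by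
  simp only [ZK, Pi.mul_apply, ιK_T, K_cu u v (p := pK j) rfl d d' b i hv, fw_append, fw_cons, fl,
    Rat.cast_mul]
  ring

lemma ZK_ca (b : Bool) (i : ℕ) (hv : V false (u ++ (.cr b, i) :: (.cap, i) :: v)) :
    ZK (u ++ (.cr b, i) :: (.cap, i) :: v) =
      ιK (T (if b then -1 else 1)) * ZK (u ++ (.cap, i) :: v) := funext fun j => by
  simp only [ZK, Pi.mul_apply, ιK_T, K_ca u v (p := pK j) rfl b i hv, fw_append, fw_cons, fl,
    Rat.cast_mul]
  ring

lemma ZK_sk (d b : Bool) (i : ℕ) (hv : V false (u ++ (.cr b, i) :: v)) :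
    ZK (u ++ (.cr true, i) :: v) + ZK (u ++ (.cr false, i) :: v) =
      ιK (C (T 1)) * (ZK (u ++ v) + ZK (u ++ (.cap, i) :: (.cup d, i) :: v)) := funext fun j => by
  simp only [ZK, Pi.mul_apply, Pi.add_apply, ιK_z, K_sk u v (p := pK j) rfl d b i hv, fw_append,
    fw_cons, fl, Rat.cast_mul, Rat.cast_add, Rat.cast_neg, Rat.cast_one, if_true,
    Bool.false_eq_true, if_false]
  linear_combination (I * fw u * fw v * (((pK j).z true : ℚ) : ℂ) *
    ((Zs (pK j).k' (u ++ (.cap, i) :: (.cup d, i) :: v) : ℚ) : ℂ)) * neg_sq i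

lemma smooth_val {b d : Bool} {i : ℕ} (hv : V false (u ++ (.cr b, i) :: v)) :
    V false (u ++ v) ∧ V false (u ++ (.cap, i) :: (.cup d, i) :: v) := by
  have h0 := hv.tail
  obtain ⟨P, a, c, B, hE, rfl⟩ := split2 (rn false [] u) i (by
    simpa [Letter.inp] using val_len h0)
  have hT := allT_ctx u rfl
  rw [hE] at hT h0
  obtain rfl : a = true := hT a (by simp)
  obtain rfl : c = true := hT c (by simp)
  have h1 := same_val h0
  refine ⟨hv.swap (by rw [hE]; exact h1), hv.swap ?_⟩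
  rw [hE]
  simp only [Val, nx_shift0, fit_shift0]
  simpa [nx, ins, del, Fit, cp, Letter.inp] using h1

lemma syK : Sy false ιK.range (ιK δK) ZK where
  mv u v _ _ hm hv := funext fun j => by
    simp only [ZK, K_mv u v (p := pK j) rfl hm hv, fw_append, fw_mv hm]
  cu u v d b i hv := ⟨_, ⟨_, rfl⟩, ZK_cu u v d _ b i hv⟩
  ca u v b i hv := ⟨_, ⟨_, rfl⟩, ZK_ca u v b i hv⟩
  eye u v d i hv := funext fun j => by
    simp only [ZK, Pi.mul_apply, ιK_δ, K_eye u v (p := pK j) d i hv, fw_append, fw_cons, fl,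
      Rat.cast_mul _ (Zs _ _)]
    linear_combination (-fw u * fw v * ((Zs (pK j).k' (u ++ v) : ℚ) : ℂ) *
      (((pK j).t false * ∑ a, (pK j).α true a / (pK j).α false a +
        (pK j).t true * ∑ a, (pK j).α false a / (pK j).α true a : ℚ) : ℂ)) * neg_sq i
  nil := funext fun _ => by simp [ZK, fw, Zs_nil]
  δS := ⟨_, rfl⟩
  sw u v b i d _ hv := ⟨-1, neg_mem (one_mem _), _, ⟨C (T 1), rfl⟩, _, ⟨C (T 1), rfl⟩, by
    have := ZK_sk u v d b i hv
    cases b <;> simp only [Bool.not_true, Bool.not_false] <;> linear_combination this,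
    Or.inr (smooth_val u v (d := d) hv).1, Or.inr (smooth_val u v hv).2⟩

/-- The polynomial with the given values. -/
noncomputable def KK (w : Word) : L2 := by
  classical exact if h : ∃ r, ZK w = ιK δK * ιK r then h.choose else 0

lemma KK_spec {w : Word} (hv : V false w) (hn : w ≠ []) : ZK w = ιK δK * ιK (KK w) := by
  obtain ⟨_, ⟨r, rfl⟩, h⟩ := syK.all w hv hn
  have h' : ∃ r, ZK w = ιK δK * ιK r := ⟨r, h⟩
  rw [KK, dif_pos h']
  exact h'.choose_spec

lemma KK_congr {w w' : Word} (h : ZK w = ZK w') : KK w = KK w' := by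
  unfold KK
  rw [h]

lemma uval_flag {n : ℕ} {u v : Word} {d d' : Bool} {i : ℕ}
    (h : UValid n (u ++ (.cup d, i) :: v) 0) : UValid n (u ++ (.cup d', i) :: v) 0 := by
  induction u generalizing n with
  | nil => exact h
  | cons g u ih => exact ⟨h.1, ih h.2⟩

theorem exists_kauffman : ∃ K, IsKauffman K := by
  have fl : ∀ u v d d' i, ZK (u ++ (.cup d, i) :: v) = ZK (u ++ (.cup d', i) :: v) :=
    fun u v d d' i => funext fun j => by
      simp only [ZK, K_flag u v d d' i, fw_append, fw_cons, H90.fl]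
  refine ⟨KK, fun u v d i => KK_congr (fl u v _ _ i), fun u v x y hm hv => KK_congr ?_,
    ιK_inj ?_, fun u v d b i hv => ιK_inj ?_, fun u v b i hv => ιK_inj ?_,
    fun u v i hv => ιK_inj ?_⟩
  · simp only [List.append_assoc] at hv ⊢
    exact syK.mv u v x y hm (val_false.2 hv)
  · have hv : V false ([] ++ (.cup true, 0) :: (.cap, 0) :: []) := (V.eye (by simp)).2 rfl
    refine (KK_spec hv (by simp)).symm.trans ((syK.eye _ _ _ _ hv).trans ?_)
    rw [map_one]
    exact congrArg _ syK.nil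
  · have hv' : V false _ := val_false.2 hv
    rw [map_mul, mul_left_comm, ← KK_spec hv' (by simp), ← KK_spec (w := u ++ (.cup d, i) :: v)
      (val_false.2 (uval_flag (val_false.1 hv'.curlCup))) (by simp)]
    exact ZK_cu u v d d b i hv'
  · have hv' : V false _ := val_false.2 hv
    rw [map_mul, mul_left_comm, ← KK_spec hv' (by simp), ← KK_spec hv'.curlCap (by simp)]
    exact ZK_ca u v b i hv'
  · have hv' : V false _ := val_false.2 hv
    have h1 := smooth_val u v (d := true) hv'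
    rw [map_add, map_mul, map_add, mul_add, mul_left_comm, mul_add (ιK δK),
      ← KK_spec hv' (by simp), ← KK_spec (hv'.flip (b' := false)) (by simp),
      ← KK_spec h1.2 (by simp), ← KK_spec h1.1 (ne_nil_of_len (o := false) (by
        have := val_len hv'.tail; simp [Letter.inp] at this; omega))]
    exact ZK_sk u v true true i hv'

end Pool.Agent.Lib.MP_3a4f2f_gt.H90
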