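import Pool.Agent.Lib.MP_3a4f2f_gt.H90.Gl

/-! Reidemeister III for all directions, and invariance of the oriented state sum. -/

set_option autoImplicit false

namespace Pool.Agent.Lib.MP_3a4f2f_gt.H90

variable {F : Type} [Field F] {N : ℕ} {p : Par F N}

/-- The two words act in the same way on states with directions `E`. -/
structure Eqv (p : Par F N) (E : List Bool) (x y : Word) : Prop where
  eq : ∀ ψ s, s.map Prod.fst = E → tr p.k x ψ s = tr p.k y ψ s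

variable {E : List Bool} {x y z : Word}

lemma Eqv.symm (h : Eqv p E x y) : Eqv p E y x := ⟨fun ψ s hs => (h.eq ψ s hs).symm⟩

lemma Eqv.trans (h : Eqv p E x y) (h' : Eqv p E y z) : Eqv p E x z :=
  ⟨fun ψ s hs => (h.eq ψ s hs).trans (h'.eq ψ s hs)⟩

lemma Eqv.ctx (u v : Word) {E' : List Bool} (h : Eqv p E' x y) (he : rn true E u = E') :
    Eqv p E (u ++ (x ++ v)) (u ++ (y ++ v)) := ⟨fun ψ s hs => by
  simp only [tr_append]
  exact p.resp.tr u fun t ht => h.eq _ t (by rw [ht, hs, he])⟩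

lemma Eqv.sh (P : List Bool) (h : Eqv p E x y) :
    Eqv p (P ++ E) (sh P.length x) (sh P.length y) := ⟨fun ψ s hs => by
  obtain ⟨s1, s2, rfl, rfl, rfl⟩ := List.map_eq_append_iff.1 hs
  rw [List.length_map, tr_shift, tr_shift]
  exact h.eq _ _ rfl⟩

lemma eq1 {e : Bool} {B : List Bool}
    (h : ∀ ψ a s, tr p.k x ψ ((e, a) :: s) = tr p.k y ψ ((e, a) :: s)) : Eqv p (e :: B) x y := by
  refine ⟨fun ψ s hs => ?_⟩
  obtain ⟨⟨_, a⟩, s, rfl, rfl, -⟩ := List.map_eq_cons_iff.1 hs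
  exact h ψ a s

lemma eq2 {e e' : Bool} {B : List Bool}
    (h : ∀ ψ a a' s, tr p.k x ψ ((e, a) :: (e', a') :: s) = tr p.k y ψ ((e, a) :: (e', a') :: s)) :
    Eqv p (e :: e' :: B) x y := by
  refine ⟨fun ψ s hs => ?_⟩
  obtain ⟨⟨_, a⟩, s, rfl, rfl, h1⟩ := List.map_eq_cons_iff.1 hs
  obtain ⟨⟨_, a'⟩, s, rfl, rfl, -⟩ := List.map_eq_cons_iff.1 h1
  exact h ψ a a' s

lemma eq3 {e e' e'' : Bool} {B : List Bool}
    (h : ∀ ψ a a' a'' s, tr p.k x ψ ((e, a) :: (e', a') :: (e'', a'') :: s) =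
      tr p.k y ψ ((e, a) :: (e', a') :: (e'', a'') :: s)) : Eqv p (e :: e' :: e'' :: B) x y := by
  refine ⟨fun ψ s hs => ?_⟩
  obtain ⟨⟨_, a⟩, s, rfl, rfl, h1⟩ := List.map_eq_cons_iff.1 hs
  obtain ⟨⟨_, a'⟩, s, rfl, rfl, h2⟩ := List.map_eq_cons_iff.1 h1
  obtain ⟨⟨_, a''⟩, s, rfl, rfl, -⟩ := List.map_eq_cons_iff.1 h2
  exact h ψ a a' a'' s

lemma eComm (E : List Bool) (k l : Letter) (i t : ℕ) (h : i + t + k.inp + l.inp ≤ E.length) :
    Eqv p E [(k, i), (l, i + t + k.out)] [(l, i + t + k.inp), (k, i)] :=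
  ⟨fun ψ s hs => p.resp.comm k l i t ψ s (by rwa [← hs, List.length_map] at h)⟩

lemma eZig (d : Bool) (B : List Bool) : Eqv p ((!d) :: B) [(.cup d, 1), (.cap, 0)] [] :=
  eq1 fun ψ a s => zig p ψ s d a

lemma eZag (d : Bool) (B : List Bool) : Eqv p (d :: B) [(.cup d, 0), (.cap, 1)] [] :=
  eq1 fun ψ a s => zag p ψ s d a

lemma eSU (d b e : Bool) (B : List Bool) :
    Eqv p (e :: B) [(.cup d, 1), (.cr b, 0)] [(.cup d, 0), (.cr (!b), 1)] :=
  eq1 fun ψ _ s => slideCup p ψ s d b _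

lemma eSA (b e e' e'' : Bool) (B : List Bool) :
    Eqv p (e :: e' :: e'' :: B) [(.cr b, 0), (.cap, 1)] [(.cr (!b), 1), (.cap, 0)] :=
  eq3 fun ψ _ _ _ s => slideCap p ψ s b _ _ _

lemma eSA' (b e e' e'' : Bool) (B : List Bool) :
    Eqv p (e :: e' :: e'' :: B) [(.cr (!b), 0), (.cap, 1)] [(.cr b, 1), (.cap, 0)] := by
  simpa using eSA (!b) e e' e'' B

lemma eR2 (b e e' : Bool) (B : List Bool) : Eqv p (e :: e' :: B) [(.cr b, 0), (.cr (!b), 0)] [] :=
  eq2 fun ψ _ _ s => r2 p ψ s b _ _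

lemma eR2' (b e e' : Bool) (B : List Bool) :
    Eqv p (e :: e' :: B) [(.cr (!b), 0), (.cr b, 0)] [] := by
  simpa using eR2 (!b) e e' B

/-- Reidemeister III. -/
def Yb (p : Par F N) (e e' e'' β γ δ : Bool) : Prop := ∀ B, Eqv p (e :: e' :: e'' :: B)
  [(.cr β, 0), (.cr γ, 1), (.cr δ, 0)] [(.cr δ, 1), (.cr γ, 0), (.cr β, 1)]

variable {e e' e'' β γ δ : Bool}

lemma Yb.cj1 (h : Yb p e e' e'' β γ δ) : Yb p e' e e'' (!β) δ γ := fun B =>
  ((Eqv.ctx [(.cr (!β), 0), (.cr δ, 1), (.cr γ, 0)] []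
    ((eR2 β e e' B).sh [e'']) (by rfl)).symm.trans
    (Eqv.ctx [(.cr (!β), 0)] [(.cr (!β), 1)] (h B).symm (by rfl))).trans
    (Eqv.ctx [] [(.cr γ, 1), (.cr δ, 0), (.cr (!β), 1)] (eR2' β e' e (e'' :: B)) (by rfl))

lemma Yb.cj2 (h : Yb p e e' e'' β γ δ) : Yb p e e'' e' γ β (!δ) := fun B =>
  ((Eqv.ctx [] [(.cr γ, 0), (.cr β, 1), (.cr (!δ), 0)]
    ((eR2' δ e'' e' B).sh [e]) (by rfl)).symm.trans
    (Eqv.ctx [(.cr (!δ), 1)] [(.cr (!δ), 0)] (h B).symm (by rfl))).trans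
    (Eqv.ctx [(.cr (!δ), 1), (.cr β, 0), (.cr γ, 1)] [] (eR2 δ e' e'' (e :: B)) (by rfl))

lemma down (d e e' c c' : Bool) (B : List Bool) : Eqv p ((!d) :: e :: e' :: B)
    [(.cr (!c), 0), (.cr (!c'), 1)] [(.cup d, 3), (.cr c', 2), (.cr c, 1), (.cap, 0)] :=
  (((((Eqv.ctx [(.cr (!c), 0), (.cr (!c'), 1)] [] ((eZig d B).sh [e, e']) (by rfl)).symm.trans
    (Eqv.ctx [(.cr (!c), 0)] [(.cap, 2)] (eComm (e :: (!d) :: e' :: B) (.cr (!c')) (.cup d) 1 0
      (by simp [Letter.inp])) (by rfl))).trans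
    (Eqv.ctx [] [(.cr (!c'), 1), (.cap, 2)] (eComm ((!d) :: e :: e' :: B) (.cr (!c)) (.cup d) 0 1
      (by simp [Letter.inp])) (by rfl))).trans
    (Eqv.ctx [(.cup d, 3), (.cr (!c), 0)] [] ((eSA' c' (!d) e' d ((!d) :: B)).sh [e])
      (by rfl))).trans
    (Eqv.ctx [(.cup d, 3)] [(.cap, 1)] (eComm ((!d) :: e :: e' :: d :: (!d) :: B) (.cr (!c))
      (.cr c') 0 0 (by simp [Letter.inp])) (by rfl))).trans
    (Eqv.ctx [(.cup d, 3), (.cr c', 2)] [] (eSA' c (!d) e d (e' :: (!d) :: B)) (by rfl))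

lemma Yb.rot (h : Yb p e e' e'' β γ δ) : Yb p (!e'') e e' (!γ) (!δ) β := fun B =>
  (((((Eqv.ctx [(.cr β, 1)] [] (down e'' e' e δ γ B) (by rfl)).trans
    (Eqv.ctx [] [(.cr γ, 2), (.cr δ, 1), (.cap, 0)] (eComm ((!e'') :: e :: e' :: B) (.cr β)
      (.cup e'') 1 0 (by simp [Letter.inp])) (by rfl))).trans
    (Eqv.ctx [(.cup e'', 3)] [(.cap, 0)] ((h ((!e'') :: B)).sh [!e'']) (by rfl))).trans
    (Eqv.ctx [(.cup e'', 3), (.cr δ, 2), (.cr γ, 1)] []
      (eComm ((!e'') :: e'' :: e :: e' :: (!e'') :: B) .cap (.cr β) 0 0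
        (by simp [Letter.inp])).symm (by rfl))).trans
    (Eqv.ctx [] [(.cr β, 0)] (down e'' e e' γ δ B).symm (by rfl))).symm

/-- All six forms. -/
def Ya (p : Par F N) (e e' e'' : Bool) : Prop :=
  ∀ β γ δ, (β = δ → γ = β) → Yb p e e' e'' β γ δ

lemma Ya.rot (h : Ya p e e' e'') : Ya p (!e'') e e' := fun β γ δ hv => by
  simpa using (h δ (!β) (!γ) (by revert β γ δ; decide)).rot

lemma yaT : Ya p true true true := by
  have h : ∀ b, Yb p true true true b b b := fun b B => eq3 fun ψ _ _ _ s => r3P p ψ s b _ _ _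
  intro β γ δ hv
  cases β <;> cases γ <;> cases δ
  exacts [h _, (h false).cj2, absurd (hv rfl) (by decide), (h true).cj1, (h false).cj1,
    absurd (hv rfl) (by decide), (h true).cj2, h _]

theorem eR3 (b e e' e'' : Bool) : Yb p e e' e'' b b b := by
  have h0 := yaT (p := p)
  have h1 := h0.rot
  have h2 := h1.rot
  have h3 := h2.rot
  have h4 := h3.rot
  have h5 := h4.rot
  have k1 := (h1 (!b) b b (by simp)).cj1
  have k2 := (h4 (!b) b b (by simp)).cj1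
  rw [Bool.not_not b] at k1 k2
  cases e <;> cases e' <;> cases e''
  exacts [h3 _ _ _ id, h2 _ _ _ id, k2, h1 _ _ _ id, h4 _ _ _ id, k1, h5 _ _ _ id, h0 _ _ _ id]

theorem eqv_rmove (h : RMove x y) {v : Word} (hv : Val true E (x ++ v) []) : Eqv p E x y := by
  cases h with
  | comm k l i t =>
    refine eComm E k l i t ?_
    have h1 := val_len hv
    have h2 := val_len2 hv
    simp only at h1 h2
    omega
  | zig d i =>
    obtain ⟨P, a, B, rfl, rfl⟩ := split1 E i (by simpa [Letter.inp] using val_len hv)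
    obtain rfl : a = !d := Bool.eq_not_iff.2 (((zig_core P B a d v [] (by simp)).1.1 hv).1 rfl)
    exact (eZig d B).sh P
  | zag d i =>
    obtain ⟨P, a, B, rfl, rfl⟩ := split1 E i (by
      have := val_len2 hv; simp [Letter.inp, Letter.out] at this; omega)
    obtain rfl : a = d := ((zag_core P B a d v [] (by simp)).1.1 hv).1 rfl
    exact (eZag a B).sh P
  | slideCup d b i =>
    obtain ⟨P, a, B, rfl, rfl⟩ := split1 E i (by simpa [Letter.inp] using val_len hv)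
    exact (eSU d b a B).sh P
  | slideCap b i =>
    obtain ⟨P, a, c, e, B, rfl, rfl⟩ := split3 E i (by
      have := val_len2 hv; have := val_len hv; simp [Letter.inp, Letter.out] at *; omega)
    exact (eSA b a c e B).sh P
  | r2 b i =>
    obtain ⟨P, a, c, B, rfl, rfl⟩ := split2 E i (by simpa [Letter.inp] using val_len hv)
    exact (eR2 b a c B).sh P
  | r3 b i =>
    obtain ⟨P, a, c, e, B, rfl, rfl⟩ := split3 E i (by
      have := val_len2 hv; have := val_len hv; simp [Letter.inp, Letter.out] at *; omega)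
    exact (eR3 b a c e B).sh P

end Pool.Agent.Lib.MP_3a4f2f_gt.H90
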