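import Pool.Agent.Lib.MP_3a4f2f_gt.H90.Mv

/-! Parameters exist; the state sum of a closed word; a Laurent polynomial with many roots. -/

set_option autoImplicit false

namespace Pool.Agent.Lib.MP_3a4f2f_gt.H90

open LaurentPolynomial

variable {F : Type} [Field F]

lemma geoA {x : F} (hx : x ≠ 0) (y : F) (c : ℕ) :
    x⁻¹ * (x * y * x ^ (2 * c)) + (x⁻¹ - x) * ∑ a ∈ Finset.range c, x * y * x ^ (2 * a) = y := by
  induction c with
  | zero => simp [hx]
  | succ c ih =>
    rw [Finset.sum_range_succ, mul_add _ _ (x * y * _), ← add_assoc]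
    have : x⁻¹ * (x * y * x ^ (2 * (c + 1))) + (x⁻¹ - x) * (x * y * x ^ (2 * c)) =
        x⁻¹ * (x * y * x ^ (2 * c)) := by field_simp; ring
    linear_combination ih + this

lemma sum_lt {N : ℕ} (f : ℕ → F) (c : Fin N) :
    (∑ a : Fin N, if a < c then f a else 0) = ∑ a ∈ Finset.range c, f a := by
  have := Fin.sum_univ_eq_sum_range (fun a => if a < c.val then f a else 0) N
  simp only [Fin.lt_def]
  rw [this, ← Finset.sum_filter]
  congr 1
  ext a
  simp only [Finset.mem_filter, Finset.mem_range]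
  omega

lemma geo {x : F} (hx : x ≠ 0) (N : ℕ) (w : Fin N → F)
    (hw : ∀ a, w a = x * (x ^ N)⁻¹ * x ^ (2 * a.val)) :
    (x - x⁻¹) * ∑ a, w a = x ^ N - (x ^ N)⁻¹ ∧
    (∀ c, x⁻¹ * w c + (x⁻¹ - x) * ∑ a, (if a < c then w a else 0) = (x ^ N)⁻¹) ∧
    ∀ c, x * w c + (x - x⁻¹) * ∑ a, (if c < a then w a else 0) = x ^ N := by
  have h1 : (x - x⁻¹) * ∑ a, w a = x ^ N - (x ^ N)⁻¹ := by
    have := geoA hx (x ^ N)⁻¹ N
    have e : x⁻¹ * (x * (x ^ N)⁻¹ * x ^ (2 * N)) = x ^ N := by field_simp; ring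
    simp only [hw]
    rw [Fin.sum_univ_eq_sum_range (fun a => x * (x ^ N)⁻¹ * x ^ (2 * a)) N]
    linear_combination e - this
  have h2 : ∀ c, x⁻¹ * w c + (x⁻¹ - x) * ∑ a, (if a < c then w a else 0) = (x ^ N)⁻¹ := fun c => by
    simp only [hw]
    rw [sum_lt (fun a => x * (x ^ N)⁻¹ * x ^ (2 * a)) c]
    exact geoA hx _ c
  refine ⟨h1, h2, fun c => ?_⟩
  have h3 : ∑ a, w a = (∑ a, if a < c then w a else 0) + (∑ a, if a = c then w a else 0) +
      ∑ a, if c < a then w a else 0 := by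
    rw [← Finset.sum_add_distrib, ← Finset.sum_add_distrib]
    refine Finset.sum_congr rfl fun a _ => ?_
    split_ifs <;> first | omega | simp
  rw [Finset.sum_ite_eq', if_pos (Finset.mem_univ c)] at h3
  linear_combination h1 + h2 c - (x - x⁻¹) * h3

/-- Parameters for `N` labels. -/
noncomputable def mkPar (q l : F) (hq : q ≠ 0) (hl : l ≠ 0) (N : ℕ) : Par F N where
  q := q
  Q := q ^ N
  l := l
  α d a := if d then 1 else q⁻¹ * q ^ N * q⁻¹ ^ (2 * a.val)
  q0 := hq
  Q0 := pow_ne_zero _ hq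
  l0 := hl
  α0 d a := by cases d <;> simp [hq]
  key d b c := by
    have g1 := geo hq N (fun a => 1 / (q⁻¹ * q ^ N * q⁻¹ ^ (2 * a.val))) fun a => by
      rw [inv_pow]; field_simp
    have g2 := geo (inv_ne_zero hq) N (fun a => q⁻¹ * q ^ N * q⁻¹ ^ (2 * a.val) / 1) fun a => by
      simp
    simp only [inv_inv, inv_pow q N] at g2
    cases d <;> cases b
    exacts [g2.2.1 c, g2.2.2 c, g1.2.2 c, g1.2.1 c]
  loop d := by
    have g1 := geo hq N (fun a => 1 / (q⁻¹ * q ^ N * q⁻¹ ^ (2 * a.val))) fun a => by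
      rw [inv_pow]; field_simp
    have g2 := geo (inv_ne_zero hq) N (fun a => q⁻¹ * q ^ N * q⁻¹ ^ (2 * a.val) / 1) fun a => by
      simp
    simp only [inv_inv, inv_pow q N] at g2
    cases d
    · simp only [Bool.false_eq_true, if_false, Bool.not_false, if_true]
      linear_combination -g2.1
    · exact g1.1

lemma laurent_zero {S I : Type} [CommRing S] (f : I → S →+* F)
    (hf : ∀ s, (∀ i, f i s = 0) → s = 0) (x : I → ℕ → Fˣ) (hx : ∀ i, Function.Injective (x i))
    (r : S[T;T⁻¹]) (h : ∀ i n, eval₂ (f i) (x i n) r = 0) : r = 0 := by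
  obtain ⟨m, g, hg⟩ := r.exists_T_pow
  have h1 : g = 0 := by
    ext j
    refine hf _ fun i => ?_
    have : g.map (f i) = 0 := by
      refine Polynomial.eq_zero_of_infinite_isRoot _ (Set.infinite_of_injective_forall_mem
        (f := fun n => (x i n : F)) (Units.val_injective.comp (hx i)) fun n => ?_)
      rw [Set.mem_ofPred_eq, Polynomial.IsRoot, Polynomial.eval_map, ← eval₂_toLaurent, hg, map_mul,
        h, zero_mul]
    simpa using congrArg (Polynomial.coeff · j) this
  rw [h1, map_zero] at hg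
  exact (isUnit_T m).mul_left_eq_zero.1 hg.symm

section
variable {A : Type} (κ : Ker F A)

/-- The state sum of a closed word. -/
noncomputable def Zs (w : Word) : F := by
  classical exact tr κ w (fun s => if s = [] then 1 else 0) []

variable {κ} {o : Bool} {D : A → Bool}

lemma Zs_nil : Zs κ [] = 1 := by simp [Zs]

lemma Zs_lin (H : Resp o D κ) (u v x y y' y'' : Word) (a b c : F)
    (h : ∀ ψ s, s.map D = rn o [] u →
      tr κ x ψ s = a * tr κ y ψ s + b * tr κ y' ψ s + c * tr κ y'' ψ s) :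
    Zs κ (u ++ (x ++ v)) =
      a * Zs κ (u ++ (y ++ v)) + b * Zs κ (u ++ (y' ++ v)) + c * Zs κ (u ++ (y'' ++ v)) := by
  simp only [Zs, tr_append]
  rw [← tr_lin, ← one_mul (tr κ u (fun t => a * _ + b * _) []), ← tr_lin]
  exact H.tr u fun t ht => by rw [h _ t ht, one_mul]

end

end Pool.Agent.Lib.MP_3a4f2f_gt.H90
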